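import Pool.Agent.H62.HIL.VRI
import Pool.Agent.H3.SF.Defs

/-!
# THEOREM S, chapter 5 (HIL): homogeneous elements
-/

set_option autoImplicit false

namespace Pool.Agent.H62.HIL

open MvPolynomial Pool.Agent.H3.SF

theorem itg_iff {κ F ι : Type} [Field κ] [Field F] [Algebra κ F] {v : ι → F} {a : F} :
    Pool.Agent.H3.SF.Itg κ v a ↔ Pool.Agent.H62.HIL.Itg κ v a := by
  constructor
  · rintro ⟨P, hP, hPa⟩
    refine ⟨P.map ((aeval v : MvPolynomial ι κ →ₐ[κ] F).toRingHom.codRestrict
      (Algebra.adjoin κ (Set.range v)).toSubring (aeval_mem v)), hP.map _, ?_⟩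
    rw [Polynomial.eval₂_map]
    exact hPa
  · rintro ⟨P, hP, hPa⟩
    have hsurj : Function.Surjective ((aeval v : MvPolynomial ι κ →ₐ[κ] F).toRingHom.codRestrict
      (Algebra.adjoin κ (Set.range v)).toSubring (aeval_mem v)) := by
      rintro ⟨x, hx⟩
      have hx' : x ∈ Algebra.adjoin κ (Set.range v) := hx
      rw [Algebra.adjoin_range_eq_range_aeval] at hx'
      obtain ⟨f, hf⟩ := hx'
      exact ⟨f, Subtype.ext hf⟩
    have hlift : P ∈ Polynomial.lifts ((aeval v : MvPolynomial ι κ →ₐ[κ] F).toRingHom.codRestrict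
      (Algebra.adjoin κ (Set.range v)).toSubring (aeval_mem v)) := by
      rw [Polynomial.lifts_iff_coeff_lifts]
      intro n
      exact hsurj _
    obtain ⟨R, hR1, hR2, hR3⟩ := Polynomial.lifts_and_degree_eq_and_monic hlift hP
    refine ⟨R, hR3, ?_⟩
    rw [← hR1, Polynomial.eval₂_map] at hPa
    exact hPa

variable {κ F : Type} [Field κ] [Field F] [Algebra κ F] {ι : Type} {E : Derivation κ F F}

theorem hm_mul {s t : ℤ} {a b : F} (ha : Hm κ E s a) (hb : Hm κ E t b) : Hm κ E (s + t) (a * b) := by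
  unfold Hm at *
  rw [Derivation.leibniz, smul_eq_mul, smul_eq_mul, ha, hb]
  push_cast; ring

theorem hm_add {t : ℤ} {a b : F} (ha : Hm κ E t a) (hb : Hm κ E t b) : Hm κ E t (a + b) := by
  unfold Hm at *
  rw [map_add, ha, hb]; ring

theorem hm_neg {t : ℤ} {a : F} (ha : Hm κ E t a) : Hm κ E t (-a) := by
  unfold Hm at *
  rw [map_neg, ha]; ring

theorem hm_sub {t : ℤ} {a b : F} (ha : Hm κ E t a) (hb : Hm κ E t b) : Hm κ E t (a - b) := by
  unfold Hm at *
  rw [map_sub, ha, hb]; ring

theorem hm_algebraMap (c : κ) : Hm κ E 0 (algebraMap κ F c) := by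
  unfold Hm
  rw [Derivation.map_algebraMap]; simp

theorem hm_one : Hm κ E 0 (1 : F) := by
  unfold Hm
  simp

theorem hm_zero (t : ℤ) : Hm κ E t (0 : F) := by
  unfold Hm
  simp

theorem hm_pow {t : ℤ} {a : F} (ha : Hm κ E t a) (n : ℕ) : Hm κ E (n * t) (a ^ n) := by
  induction n with
  | zero => simpa using hm_one (κ := κ) (E := E)
  | succ n ih =>
    rw [pow_succ]
    have h1 := hm_mul ih ha
    have h2 : (n : ℤ) * t + t = ((n + 1 : ℕ) : ℤ) * t := by push_cast; ring
    rwa [h2] at h1

theorem hm_sum {τ : Type*} {t : ℤ} (s : Finset τ) (f : τ → F) (h : ∀ i ∈ s, Hm κ E t (f i)) :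
    Hm κ E t (∑ i ∈ s, f i) := by
  classical
  induction s using Finset.induction_on with
  | empty => simpa using hm_zero t
  | insert a s ha ih =>
    rw [Finset.sum_insert ha]
    exact hm_add (h a (Finset.mem_insert_self _ _))
      (ih fun i hi => h i (Finset.mem_insert_of_mem hi))

theorem hm_div {s t : ℤ} {a b : F} (ha : Hm κ E s a) (hb : Hm κ E t b) (h0 : b ≠ 0) :
    Hm κ E (s - t) (a / b) := by
  unfold Hm at *
  have h1 : E (b * (a / b)) = E a := by rw [mul_div_cancel₀ _ h0]
  rw [Derivation.leibniz, smul_eq_mul, smul_eq_mul, ha, hb] at h1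
  have h2 : b * E (a / b) = b * (((s - t : ℤ) : F) * (a / b)) := by
    have h3 : b * E (a / b) = (s : F) * a - a / b * ((t : F) * b) := by
      rw [← h1]; ring
    rw [h3]
    push_cast
    field_simp
  exact mul_left_cancel₀ h0 h2

theorem hm_monomial {v : ι → F} (hE : ∀ i, Hm κ E 1 (v i)) (m : ι →₀ ℕ) (c : κ) :
    Hm κ E (m.degree : ℤ) (aeval v (monomial m c)) := by
  classical
  rw [aeval_monomial]
  have h : ∀ s : Finset ι, Hm κ E ((∑ i ∈ s, m i : ℕ) : ℤ) (∏ i ∈ s, v i ^ m i) := by
    intro s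
    induction s using Finset.induction_on with
    | empty => simpa using hm_one (κ := κ) (E := E)
    | insert a s ha ih =>
      rw [Finset.prod_insert ha, Finset.sum_insert ha]
      have h1 := hm_mul (hm_pow (hE a) (m a)) ih
      have h2 : ((m a : ℕ) : ℤ) * 1 + ((∑ i ∈ s, m i : ℕ) : ℤ) =
          ((m a + ∑ i ∈ s, m i : ℕ) : ℤ) := by push_cast; ring
      rwa [h2] at h1
  have h2 := hm_mul (hm_algebraMap (κ := κ) (F := F) (E := E) c) (h m.support)
  rw [zero_add] at h2
  exact h2

theorem hm_aeval {v : ι → F} (hE : ∀ i, Hm κ E 1 (v i)) {f : MvPolynomial ι κ} {n : ℕ}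
    (hf : f.IsHomogeneous n) : Hm κ E n (aeval v f) := by
  rw [f.as_sum, map_sum]
  refine hm_sum _ _ fun m hm => ?_
  have h1 := hm_monomial hE m (coeff m f)
  have h2 : m.degree = n := by
    rw [Finsupp.degree_eq_weight_one]
    exact hf (mem_support_iff.mp hm)
  rwa [h2] at h1

/-- components of different degrees are independent -/
theorem hm_sum_eq_zero [CharZero F] {τ : Type*} (S : Finset τ) (d : τ → ℤ)
    (hd : Set.InjOn d (S : Set τ)) (y : τ → F) (h : ∀ e ∈ S, Hm κ E (d e) (y e))
    (h0 : ∑ e ∈ S, y e = 0) : ∀ e ∈ S, y e = 0 := by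
  classical
  induction S using Finset.induction_on generalizing y with
  | empty => intro e he; simp at he
  | insert a s ha ih =>
    have hd' : Set.InjOn d (s : Set τ) := hd.mono (by simp)
    rw [Finset.sum_insert ha] at h0
    have h1 : ∑ e ∈ s, (((d e : ℤ) : F) - (d a : F)) * y e = 0 := by
      have h2 : E (y a + ∑ e ∈ s, y e) = 0 := by rw [h0, map_zero]
      rw [map_add, map_sum, h a (Finset.mem_insert_self _ _)] at h2
      have h3 : ∑ e ∈ s, E (y e) = ∑ e ∈ s, ((d e : ℤ) : F) * y e :=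
        Finset.sum_congr rfl fun e he => h e (Finset.mem_insert_of_mem he)
      rw [h3] at h2
      have h4 : ∑ e ∈ s, (((d e : ℤ) : F) - (d a : F)) * y e =
          (((d a : ℤ) : F) * y a + ∑ e ∈ s, ((d e : ℤ) : F) * y e) -
          (d a : F) * (y a + ∑ e ∈ s, y e) := by
        simp only [sub_mul, Finset.sum_sub_distrib, mul_add, Finset.mul_sum]
        ring
      rw [h4, h2, h0]; ring
    have h5 := ih hd' (fun e => (((d e : ℤ) : F) - (d a : F)) * y e)
      (fun e he => by
        have h6 := h e (Finset.mem_insert_of_mem he)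
        unfold Hm at *
        have h7 : (((d e : ℤ) : F) - (d a : F)) = algebraMap κ F (((d e - d a : ℤ)) : κ) := by
          push_cast
          simp
        rw [h7, ← Algebra.smul_def, Derivation.map_smul, h6, mul_smul_comm]) h1
    have h8 : ∀ e ∈ s, y e = 0 := by
      intro e he
      have h9 := h5 e he
      have h10 : (((d e : ℤ) : F) - (d a : F)) ≠ 0 := by
        intro hcon
        have h11 : ((d e : ℤ) : F) = ((d a : ℤ) : F) := sub_eq_zero.mp hcon
        have h12 : d e = d a := Int.cast_injective h11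
        have h13 : e = a := hd (Finset.mem_coe.mpr (Finset.mem_insert_of_mem he))
          (Finset.mem_coe.mpr (Finset.mem_insert_self _ _)) h12
        exact ha (h13 ▸ he)
      exact (mul_eq_zero.mp h9).resolve_left h10
    intro e he
    rcases Finset.mem_insert.mp he with rfl | he
    · rw [Finset.sum_eq_zero h8, add_zero] at h0
      exact h0
    · exact h8 e he

end Pool.Agent.H62.HIL
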