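import Pool.Agent.H62.HIL.Dim

/-!
# THEOREM S, chapter 5 (HIL): dimensions of the homogeneous parts, bounds
-/

set_option autoImplicit false

namespace Pool.Agent.H62.HIL

open MvPolynomial Pool.Agent.H3.SF
open scoped IntermediateField.algebraAdjoinAdjoin

variable {κ F : Type} [Field κ] [Field F] [Algebra κ F] {E : Derivation κ F F}

/-- components of a relation -/
theorem hm_component [CharZero F] {τ : Type*} (S : Finset τ) (d : τ → ℤ) (z : τ → F)
    (h : ∀ j ∈ S, Hm κ E (d j) (z j)) (h0 : ∑ j ∈ S, z j = 0) (D : ℤ) :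
    ∑ j ∈ S.filter (fun j => d j = D), z j = 0 := by
  classical
  by_cases hD : D ∈ S.image d
  · have h1 : ∑ D ∈ S.image d, (∑ j ∈ S.filter (fun j => d j = D), z j) = 0 := by
      rw [← h0]
      exact Finset.sum_fiberwise_of_maps_to (fun j hj => Finset.mem_image_of_mem d hj) z
    refine hm_sum_eq_zero (κ := κ) (E := E) (S.image d) id (Set.injOn_id _)
      (fun D => ∑ j ∈ S.filter (fun j => d j = D), z j) (fun D _ => ?_) h1 D hD
    refine hm_sum _ _ fun j hj => ?_
    have h2 := Finset.mem_filter.mp hj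
    have h3 := h j h2.1
    rw [h2.2] at h3
    exact h3
  · refine Finset.sum_eq_zero fun j hj => ?_
    have h2 := Finset.mem_filter.mp hj
    exact absurd (h2.2 ▸ Finset.mem_image_of_mem d h2.1) hD

/-- a homogeneous integral element satisfies a homogeneous monic relation -/
theorem hom_relation {ι : Type} {v : ι → F} [CharZero F] (hE : ∀ i, Hm κ E 1 (v i)) {t : ℤ}
    {a : F} (ha : a ∈ BB κ v E t) :
    ∃ (n : ℕ) (c : ℕ → MvPolynomial ι κ),
      (∀ i, i < n → (0 ≤ ((n : ℤ) - i) * t → (c i).IsHomogeneous (((n : ℤ) - i) * t).toNat) ∧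
        (((n : ℤ) - i) * t < 0 → c i = 0)) ∧
      a ^ n + ∑ i ∈ Finset.range n, aeval v (c i) * a ^ i = 0 := by
  classical
  obtain ⟨⟨P, hP, hPa⟩, hE'⟩ := ha
  set n := P.natDegree with hn
  have h1 : a ^ n + ∑ i ∈ Finset.range n, aeval v (P.coeff i) * a ^ i = 0 := by
    rw [Polynomial.eval₂_eq_sum_range, Finset.sum_range_succ, ← hn,
      show P.coeff n = 1 from hP.coeff_natDegree] at hPa
    rw [← hPa]
    simp only [RingHom.coe_coe, map_one, one_mul]
    ring
  set N := ∑ i ∈ Finset.range n, (P.coeff i).totalDegree with hN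
  have hNi : ∀ i ∈ Finset.range n, (P.coeff i).totalDegree ≤ N := fun i hi =>
    Finset.single_le_sum (f := fun i => (P.coeff i).totalDegree) (fun _ _ => Nat.zero_le _) hi
  set S : Finset (Option (ℕ × ℕ)) :=
    Finset.insertNone (Finset.range n ×ˢ Finset.range (N + 1)) with hS
  set z : Option (ℕ × ℕ) → F := fun o => match o with
    | none => a ^ n
    | some (i, e) => aeval v (homogeneousComponent e (P.coeff i)) * a ^ i with hz
  set d : Option (ℕ × ℕ) → ℤ := fun o => match o with
    | none => n * t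
    | some (i, e) => e + i * t with hd
  have hsum : ∑ j ∈ S, z j = 0 := by
    rw [hS, Finset.sum_insertNone, Finset.sum_product, ← h1]
    simp only [hz]
    congr 1
    refine Finset.sum_congr rfl fun i hi => ?_
    rw [← Finset.sum_mul, ← map_sum, sum_comp _ _ (hNi i hi)]
  have hcomp := hm_component (κ := κ) (E := E) S d z (fun j _ => by
    rcases j with _ | ⟨i, e⟩
    · exact hm_pow hE' n
    · exact hm_mul (hm_aeval hE (homogeneousComponent_isHomogeneous e (P.coeff i)))
        (hm_pow hE' i)) hsum (n * t)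
  refine ⟨n, fun i => if 0 ≤ ((n : ℤ) - i) * t then
    homogeneousComponent (((n : ℤ) - i) * t).toNat (P.coeff i) else 0, ?_, ?_⟩
  · intro i _
    refine ⟨fun h => ?_, fun h => ?_⟩
    · simp only [if_pos h]
      exact homogeneousComponent_isHomogeneous _ _
    · simp only [if_neg (not_le.mpr h)]
  · rw [← hcomp, Finset.sum_filter, hS, Finset.sum_insertNone, Finset.sum_product]
    simp only [hz, hd, if_true]
    congr 1
    refine Finset.sum_congr rfl fun i hi => ?_
    have hi' := Finset.mem_range.mp hi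
    by_cases h : 0 ≤ ((n : ℤ) - i) * t
    · rw [if_pos h]
      obtain ⟨e0, he0⟩ : ∃ e0 : ℕ, ((n : ℤ) - i) * t = e0 := ⟨_, (Int.toNat_of_nonneg h).symm⟩
      rw [he0, Int.toNat_natCast]
      have hiff : ∀ e : ℕ, ((e : ℤ) + i * t = n * t) ↔ e = e0 := by
        intro e
        constructor
        · intro h2
          have : (e : ℤ) = e0 := by rw [← he0]; linarith
          exact_mod_cast this
        · rintro rfl
          rw [← he0]; ring
      simp only [hiff]
      by_cases hle : e0 < N + 1
      · rw [Finset.sum_ite_eq' (Finset.range (N + 1)) e0, if_pos (Finset.mem_range.mpr hle)]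
      · rw [Finset.sum_ite_eq' (Finset.range (N + 1)) e0,
          if_neg (fun h3 => hle (Finset.mem_range.mp h3)), homogeneousComponent_eq_zero, map_zero,
          zero_mul]
        exact lt_of_le_of_lt (hNi i hi) (by omega)
    · rw [if_neg h, map_zero, zero_mul]
      symm
      refine Finset.sum_eq_zero fun e _ => ?_
      rw [if_neg]
      intro h2
      apply h
      have : ((n : ℤ) - i) * t = e := by linarith
      rw [this]; exact Int.natCast_nonneg _

/-- (MPH), negative degrees -/
theorem bb_neg {ι : Type} {v : ι → F} [CharZero F] (hE : ∀ i, Hm κ E 1 (v i)) {t : ℤ}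
    (ht : t < 0) : BB κ v E t = ⊥ := by
  rw [eq_bot_iff]
  intro a ha
  obtain ⟨n, c, hc, hrel⟩ := hom_relation hE ha
  have h1 : ∑ i ∈ Finset.range n, aeval v (c i) * a ^ i = 0 := by
    refine Finset.sum_eq_zero fun i hi => ?_
    have hi' := Finset.mem_range.mp hi
    have h2 : ((n : ℤ) - i) * t < 0 := by
      have : (0 : ℤ) < (n : ℤ) - i := by
        have : (i : ℤ) < n := by exact_mod_cast hi'
        linarith
      nlinarith
    rw [(hc i hi').2 h2, map_zero, zero_mul]
  rw [h1, add_zero] at hrel
  have h3 : n ≠ 0 := by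
    rintro rfl
    simp at hrel
  exact (Submodule.mem_bot κ).mpr (pow_eq_zero_iff h3 |>.mp hrel)

/-- multiplication by `v 0` -/
noncomputable def mulV (v : Fin 2 → F) (E : Derivation κ F F) (hE : ∀ i, Hm κ E 1 (v i)) (t : ℤ) :
    BB κ v E (t - 1) →ₗ[κ] BB κ v E t where
  toFun w := ⟨v 0 * w, by
    refine ⟨itg_iff.mpr ((itg_var v 0).mul (itg_iff.mp w.2.1)), ?_⟩
    have := hm_mul (hE 0) w.2.2
    have h2 : (1 : ℤ) + (t - 1) = t := by ring
    rwa [h2] at this⟩
  map_add' a b := Subtype.ext (mul_add _ _ _)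
  map_smul' c a := Subtype.ext (mul_smul_comm _ _ _)

/-- (STP), dimension of the quotient -/
theorem rank_quot_le {v : Fin 2 → F} (hv : AlgebraicIndependent κ v) [CharZero F]
    (hE : ∀ i, Hm κ E 1 (v i)) [FiniteDimensional (kF κ v) F] (t : ℤ) :
    Module.rank κ (BB κ v E t ⧸ (LinearMap.range (mulV v E hE t))) ≤
      Module.finrank (kF κ v) F := by
  classical
  refine rank_le fun s hs => ?_
  by_contra hcon
  push Not at hcon
  choose x hx using fun i : s => Submodule.Quotient.mk_surjective
    (LinearMap.range (mulV v E hE t)) (i : _)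
  have h1 : ¬ LinearIndependent (kF κ v) fun i : s => ((x i : _) : F) := by
    intro h2
    have h3 := h2.fintype_card_le_finrank
    rw [Fintype.card_coe] at h3
    omega
  obtain ⟨l, hl, w, hw, hrel⟩ := stp hv hE t (fun i : s => ((x i : _) : F))
    (fun i => (x i).2) h1
  apply hl
  have h4 : ∑ i : s, l i • (i : BB κ v E t ⧸ (LinearMap.range (mulV v E hE t))) = 0 := by
    have h5 : ∑ i : s, l i • (i : BB κ v E t ⧸ (LinearMap.range (mulV v E hE t))) =
        Submodule.Quotient.mk (∑ i : s, l i • x i) := by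
      rw [← Submodule.mkQ_apply, map_sum]
      refine Finset.sum_congr rfl fun i _ => ?_
      rw [map_smul, Submodule.mkQ_apply, hx i]
    rw [h5, Submodule.Quotient.mk_eq_zero]
    refine ⟨⟨w, hw⟩, Subtype.ext ?_⟩
    show v 0 * w = ((∑ i : s, l i • x i : BB κ v E t) : F)
    rw [← hrel]
    simp
  rw [Fintype.linearIndependent_iff] at hs
  funext i
  exact hs l h4 i

/-- dimension of the homogeneous parts -/
theorem dim_le {v : Fin 2 → F} (hv : AlgebraicIndependent κ v) [CharZero F]
    (hE : ∀ i, Hm κ E 1 (v i)) [FiniteDimensional (kF κ v) F] (t : ℕ) :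
    Module.Finite κ (BB κ v E t) ∧
      Module.finrank κ (BB κ v E t) ≤ Module.finrank (kF κ v) F * (t + 1) := by
  have step : ∀ t : ℤ, ∀ N : ℕ, Module.Finite κ (BB κ v E (t - 1)) →
      Module.finrank κ (BB κ v E (t - 1)) ≤ N → Module.Finite κ (BB κ v E t) ∧
      Module.finrank κ (BB κ v E t) ≤ N + Module.finrank (kF κ v) F := by
    intro t N h1 h2
    haveI := h1
    have h3 := rank_quot_le hv hE t
    haveI h4 : Module.Finite κ (BB κ v E t ⧸ (LinearMap.range (mulV v E hE t))) := by
      rw [← Module.rank_lt_aleph0_iff]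
      exact lt_of_le_of_lt h3 (Cardinal.natCast_lt_aleph0)
    haveI h5 : Module.Finite κ (LinearMap.range (mulV v E hE t)) := inferInstance
    haveI h6 : Module.Finite κ (BB κ v E t) :=
      Module.Finite.of_submodule_quotient (LinearMap.range (mulV v E hE t))
    refine ⟨h6, ?_⟩
    have h7 := Submodule.finrank_quotient_add_finrank (LinearMap.range (mulV v E hE t))
    have h8 : Module.finrank κ (BB κ v E t ⧸ (LinearMap.range (mulV v E hE t))) ≤
        Module.finrank (kF κ v) F := Module.finrank_le_of_rank_le h3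
    have h9 := LinearMap.finrank_range_le (mulV v E hE t)
    omega
  induction t with
  | zero =>
    have h1 : BB κ v E ((0 : ℤ) - 1) = ⊥ := bb_neg hE (by norm_num)
    have h2 := step 0 0 (by rw [h1]; infer_instance) (by rw [h1]; simp)
    simpa using h2
  | succ t ih =>
    have e : ((t + 1 : ℕ) : ℤ) - 1 = (t : ℤ) := by push_cast; ring
    have h2 := step ((t + 1 : ℕ) : ℤ) (Module.finrank (kF κ v) F * (t + 1))
      (by rw [e]; exact ih.1) (by rw [e]; exact ih.2)
    refine ⟨h2.1, h2.2.trans (le_of_eq ?_)⟩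
    ring

end Pool.Agent.H62.HIL
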