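import Pool.Agent.H62.HIL.Dim2

/-!
# THEOREM S, chapter 5 (HIL): norms of homogeneous elements
-/

set_option autoImplicit false

namespace Pool.Agent.H62.HIL

open MvPolynomial Pool.Agent.H3.SF
open scoped IntermediateField.algebraAdjoinAdjoin

variable {κ F : Type} [Field κ] [Field F] [Algebra κ F] {E : Derivation κ F F}

/-- the homogeneous part of a monic relation -/
theorem hom_relation' {ι : Type} {v : ι → F} [CharZero F] (hE : ∀ i, Hm κ E 1 (v i)) {t : ℤ}
    {a : F} (hE' : Hm κ E t a) {P : Polynomial (MvPolynomial ι κ)} (hP : P.Monic)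
    (hPa : P.eval₂ ((aeval v : MvPolynomial ι κ →ₐ[κ] F) : MvPolynomial ι κ →+* F) a = 0) :
    a ^ P.natDegree + ∑ i ∈ Finset.range P.natDegree, aeval v
      (if 0 ≤ ((P.natDegree : ℤ) - i) * t then
        homogeneousComponent (((P.natDegree : ℤ) - i) * t).toNat (P.coeff i) else 0) * a ^ i =
      0 := by
  classical
  set n := P.natDegree with hn
  have h1 : a ^ n + ∑ i ∈ Finset.range n, aeval v (P.coeff i) * a ^ i = 0 := by
    rw [Polynomial.eval₂_eq_sum_range, Finset.sum_range_succ, ← hn,
      show P.coeff n = 1 from hP.coeff_natDegree] at hPa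
    rw [← hPa]
    simp only [RingHom.coe_coe, map_one, one_mul]
    ring
  set N := ∑ i ∈ Finset.range n, (P.coeff i).totalDegree with hN
  have hNi : ∀ i ∈ Finset.range n, (P.coeff i).totalDegree ≤ N := fun i hi =>
    Finset.single_le_sum (f := fun i => (P.coeff i).totalDegree) (fun _ _ => Nat.zero_le _) hi
  set S : Finset (Option (ℕ × ℕ)) :=
    Finset.insertNone (Finset.range n ×ˢ Finset.range (N + 1)) with hS
  set z : Option (ℕ × ℕ) → F := fun o => match o with
    | none => a ^ n
    | some (i, e) => aeval v (homogeneousComponent e (P.coeff i)) * a ^ i with hz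
  set d : Option (ℕ × ℕ) → ℤ := fun o => match o with
    | none => n * t
    | some (i, e) => e + i * t with hd
  have hsum : ∑ j ∈ S, z j = 0 := by
    rw [hS, Finset.sum_insertNone, Finset.sum_product, ← h1]
    simp only [hz]
    congr 1
    refine Finset.sum_congr rfl fun i hi => ?_
    rw [← Finset.sum_mul, ← map_sum, sum_comp _ _ (hNi i hi)]
  have hcomp := hm_component (κ := κ) (E := E) S d z (fun j _ => by
    rcases j with _ | ⟨i, e⟩
    · exact hm_pow hE' n
    · exact hm_mul (hm_aeval hE (homogeneousComponent_isHomogeneous e (P.coeff i)))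
        (hm_pow hE' i)) hsum (n * t)
  rw [← hcomp, Finset.sum_filter, hS, Finset.sum_insertNone, Finset.sum_product]
  simp only [hz, hd, if_true]
  congr 1
  refine Finset.sum_congr rfl fun i hi => ?_
  have hi' := Finset.mem_range.mp hi
  by_cases h : 0 ≤ ((n : ℤ) - i) * t
  · rw [if_pos h]
    obtain ⟨e0, he0⟩ : ∃ e0 : ℕ, ((n : ℤ) - i) * t = e0 := ⟨_, (Int.toNat_of_nonneg h).symm⟩
    rw [he0, Int.toNat_natCast]
    have hiff : ∀ e : ℕ, ((e : ℤ) + i * t = n * t) ↔ e = e0 := by
      intro e
      constructor
      · intro h2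
        have : (e : ℤ) = e0 := by rw [← he0]; linarith
        exact_mod_cast this
      · rintro rfl
        rw [← he0]; ring
    simp only [hiff]
    by_cases hle : e0 < N + 1
    · rw [Finset.sum_ite_eq' (Finset.range (N + 1)) e0, if_pos (Finset.mem_range.mpr hle)]
    · rw [Finset.sum_ite_eq' (Finset.range (N + 1)) e0,
        if_neg (fun h3 => hle (Finset.mem_range.mp h3)), homogeneousComponent_eq_zero, map_zero,
        zero_mul]
      exact lt_of_le_of_lt (hNi i hi) (by omega)
  · rw [if_neg h, map_zero, zero_mul]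
    symm
    refine Finset.sum_eq_zero fun e _ => ?_
    rw [if_neg]
    intro h2
    apply h
    have : ((n : ℤ) - i) * t = e := by linarith
    rw [this]; exact Int.natCast_nonneg _

/-- (MPH) the coefficients of the minimal polynomial of a homogeneous element are forms -/
theorem mph {ι : Type} {v : ι → F} (hv : AlgebraicIndependent κ v) [CharZero F]
    (hE : ∀ i, Hm κ E 1 (v i)) {t : ℕ} {a : F} (ha : a ∈ BB κ v E t) (i : ℕ)
    (hi : i < (minpoly (Algebra.adjoin κ (Set.range v)) a).natDegree) :
    ∃ N : MvPolynomial ι κ, N.IsHomogeneous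
      (((minpoly (Algebra.adjoin κ (Set.range v)) a).natDegree - i) * t) ∧
      (((minpoly (Algebra.adjoin κ (Set.range v)) a).coeff i : _) : F) = aeval v N := by
  classical
  haveI := ufd hv
  set A := Algebra.adjoin κ (Set.range v) with hA
  set e : MvPolynomial ι κ ≃ₐ[κ] A := hv.aevalEquiv with he
  have hev : ∀ f, ((e f : A) : F) = aeval v f := fun f => hv.algebraMap_aevalEquiv f
  have hint : IsIntegral A a := itg_iff.mp ha.1
  set p := minpoly A a with hp
  have hpm : p.Monic := minpoly.monic hint
  set P : Polynomial (MvPolynomial ι κ) := p.map (e.symm : A →+* MvPolynomial ι κ) with hP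
  have hPm : P.Monic := hpm.map _
  have hdeg : P.natDegree = p.natDegree :=
    Polynomial.natDegree_map_eq_of_injective e.symm.injective p
  have hcoe : ((aeval v : MvPolynomial ι κ →ₐ[κ] F) : MvPolynomial ι κ →+* F).comp
      (e.symm : A →+* MvPolynomial ι κ) = algebraMap A F := by
    ext x
    simp only [RingHom.comp_apply, RingHom.coe_coe]
    rw [← hev]
    exact congrArg _ (e.apply_symm_apply x)
  have hPa : P.eval₂ ((aeval v : MvPolynomial ι κ →ₐ[κ] F) : MvPolynomial ι κ →+* F) a = 0 := by
    rw [hP, Polynomial.eval₂_map, hcoe]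
    exact minpoly.aeval A a
  have hrel := hom_relation' hE ha.2 hPm hPa
  set n := P.natDegree with hn
  set c : ℕ → MvPolynomial ι κ := fun i => if 0 ≤ ((n : ℤ) - i) * (t : ℤ) then
    homogeneousComponent (((n : ℤ) - i) * (t : ℤ)).toNat (P.coeff i) else 0 with hc
  set q : Polynomial A := Polynomial.X ^ n + ∑ i ∈ Finset.range n, Polynomial.monomial i (e (c i))
    with hq
  have hsumdeg : (∑ i ∈ Finset.range n, Polynomial.monomial i (e (c i)) : Polynomial A).degree <
      (n : WithBot ℕ) := by
    refine (Polynomial.degree_sum_le _ _).trans_lt ?_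
    rw [Finset.sup_lt_iff (WithBot.bot_lt_coe _)]
    intro k hk
    exact (Polynomial.degree_monomial_le _ _).trans_lt
      (WithBot.coe_lt_coe.mpr (Finset.mem_range.mp hk))
  have hqm : q.Monic := Polynomial.monic_X_pow_add hsumdeg
  have hqa : Polynomial.aeval a q = 0 := by
    rw [hq, map_add, map_pow, Polynomial.aeval_X, map_sum, ← hrel]
    congr 1
    refine Finset.sum_congr rfl fun i _ => ?_
    rw [Polynomial.aeval_monomial]
    congr 1
  have hqdeg : q.natDegree = n := by
    rw [hq]
    exact Polynomial.natDegree_eq_of_degree_eq_some (by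
      rw [Polynomial.degree_add_eq_left_of_degree_lt (by
        rw [Polynomial.degree_X_pow]; exact hsumdeg), Polynomial.degree_X_pow])
  have hdvd : p ∣ q := minpoly.isIntegrallyClosed_dvd hint hqa
  have heq : p = q := (Polynomial.eq_of_monic_of_dvd_of_natDegree_le hpm hqm hdvd
    (by rw [hqdeg, hdeg])).symm
  have hi' : i < n := by rw [hdeg]; exact hi
  have hco : p.coeff i = e (c i) := by
    rw [heq, hq, Polynomial.coeff_add, Polynomial.coeff_X_pow, if_neg (by omega), zero_add,
      Polynomial.finset_sum_coeff]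
    simp only [Polynomial.coeff_monomial]
    rw [Finset.sum_ite_eq' (Finset.range n) i, if_pos (Finset.mem_range.mpr hi')]
  refine ⟨c i, ?_, ?_⟩
  · have hnn : 0 ≤ ((n : ℤ) - i) * (t : ℤ) :=
      mul_nonneg (by have : (i : ℤ) < n := by exact_mod_cast hi'
                     linarith) (Int.natCast_nonneg _)
    simp only [hc, if_pos hnn]
    have h3 : (((n : ℤ) - i) * (t : ℤ)).toNat = (p.natDegree - i) * t := by
      rw [← hdeg]
      have : ((n : ℤ) - i) * (t : ℤ) = (((n - i) * t : ℕ) : ℤ) := by
        push_cast [Nat.cast_sub hi'.le]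
        ring
      rw [this, Int.toNat_natCast]
    rw [← h3]
    exact homogeneousComponent_isHomogeneous _ _
  · rw [hco]
    exact hev _

/-- the norm of a homogeneous integral element of degree `t` is a form of degree `d t` -/
theorem norm_hom {ι : Type} {v : ι → F} (hv : AlgebraicIndependent κ v) [CharZero F]
    (hE : ∀ i, Hm κ E 1 (v i)) [FiniteDimensional (kF κ v) F] {t : ℕ} {a : F}
    (ha : a ∈ BB κ v E t) :
    ∃ N : MvPolynomial ι κ, N.IsHomogeneous (Module.finrank (kF κ v) F * t) ∧
      ((Algebra.norm (kF κ v) a : kF κ v) : F) = aeval v N := by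
  classical
  haveI := ufd hv
  have hint : IsIntegral (Algebra.adjoin κ (Set.range v)) a := itg_iff.mp ha.1
  have hintQ : IsIntegral (kF κ v) a := hint.tower_top
  have hmin := minpoly.isIntegrallyClosed_eq_field_fractions' (kF κ v) hint
  have hdeg : (minpoly (kF κ v) a).natDegree =
      (minpoly (Algebra.adjoin κ (Set.range v)) a).natDegree := by
    rw [hmin]
    exact (minpoly.monic hint).natDegree_map _
  obtain ⟨N0, hN0, hN0'⟩ := mph hv hE ha 0 (minpoly.natDegree_pos hint)
  set n := (minpoly (Algebra.adjoin κ (Set.range v)) a).natDegree with hn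
  set m := Module.finrank (IntermediateField.adjoin (kF κ v) {a}) F with hm
  have hnm : n * m = Module.finrank (kF κ v) F := by
    rw [← hdeg, ← IntermediateField.adjoin.finrank hintQ]
    exact Module.finrank_mul_finrank _ _ _
  have hnorm : ((Algebra.norm (kF κ v) a : kF κ v) : F) = ((-1) ^ n * aeval v N0) ^ m := by
    rw [Algebra.norm_eq_norm_adjoin, ← hm]
    have h1 := Algebra.PowerBasis.norm_gen_eq_coeff_zero_minpoly
      (IntermediateField.adjoin.powerBasis hintQ)
    rw [IntermediateField.adjoin.powerBasis_gen hintQ, IntermediateField.minpoly_gen,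
      IntermediateField.adjoin.powerBasis_dim, hdeg, hmin, Polynomial.coeff_map] at h1
    rw [h1, ← hN0']
    push_cast
    rfl
  refine ⟨((-1) ^ n * N0) ^ m, ?_, ?_⟩
  · have h2 : ((-1 : MvPolynomial ι κ) ^ n * N0).IsHomogeneous (n * t) := by
      rcases neg_one_pow_eq_or (MvPolynomial ι κ) n with h | h
      · rw [h, one_mul]; simpa using hN0
      · rw [h, neg_one_mul]; simpa using hN0.neg
    have h3 := h2.pow m
    have h4 : n * t * m = Module.finrank (kF κ v) F * t := by rw [← hnm]; ring
    rwa [h4] at h3
  · rw [hnorm, map_pow, map_mul, map_pow, map_neg, map_one]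

end Pool.Agent.H62.HIL
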