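import Pool.Agent.H62.HIL.S2

/-!
# THEOREM S, chapter 5 (HIL): integrality and valuation rings
-/

set_option autoImplicit false

namespace Pool.Agent.H62.HIL

open Polynomial

variable {κ FF : Type*} [Field κ] [Field FF] [Algebra κ FF] {ι : Type*}

/-- a monic relation with integral coefficients -/
theorem itg_of_relation {v : ι → FF} {a : FF} (n : ℕ) (c : ℕ → FF) (hc : ∀ k < n, Itg κ v (c k))
    (h : a ^ n + ∑ k ∈ Finset.range n, c k * a ^ k = 0) : Itg κ v a := by
  set A := Algebra.adjoin κ (Set.range v) with hA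
  set B := integralClosure A FF with hB
  have hint : IsIntegral B a := by
    refine ⟨X ^ n + ∑ k ∈ (Finset.range n).attach,
      monomial k.1 (⟨c k.1, hc k.1 (Finset.mem_range.mp k.2)⟩ : B), ?_, ?_⟩
    · refine monic_X_pow_add ?_
      refine (degree_sum_le _ _).trans_lt ?_
      rw [Finset.sup_lt_iff (WithBot.bot_lt_coe _)]
      intro k _
      exact (degree_monomial_le _ _).trans_lt
        (WithBot.coe_lt_coe.mpr (Finset.mem_range.mp k.2))
    · rw [eval₂_add, eval₂_pow, eval₂_X, eval₂_finset_sum]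
      have : ∑ k ∈ (Finset.range n).attach, eval₂ (algebraMap B FF) a
          (monomial k.1 (⟨c k.1, hc k.1 (Finset.mem_range.mp k.2)⟩ : B)) =
          ∑ k ∈ Finset.range n, c k * a ^ k := by
        rw [← Finset.sum_attach (Finset.range n)]
        refine Finset.sum_congr rfl fun k _ => ?_
        rw [eval₂_monomial]
        rfl
      rw [this, h]
  exact isIntegral_trans (R := A) (A := B) a hint

theorem mem_of_itg {v : ι → FF} {a : FF} (h : Itg κ v a) (o : ValuationSubring FF)
    (ho : ∀ x ∈ Algebra.adjoin κ (Set.range v), x ∈ o) : a ∈ o := by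
  obtain ⟨P, hP, hPa⟩ := h
  have h1 : IsIntegral o a := by
    let φ : Algebra.adjoin κ (Set.range v) →+* o :=
      { toFun := fun x => ⟨x.1, ho x.1 x.2⟩
        map_one' := rfl
        map_mul' := fun _ _ => rfl
        map_zero' := rfl
        map_add' := fun _ _ => rfl }
    refine ⟨P.map φ, hP.map φ, ?_⟩
    rw [eval₂_map]
    exact hPa
  obtain ⟨y, hy⟩ := IsIntegrallyClosed.isIntegral_iff.mp h1
  rw [← hy]
  exact y.2

theorem exists_valuationSubring (R : Subalgebra κ FF) {a : FF} (h : ¬ IsIntegral R a) :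
    ∃ o : ValuationSubring FF, (∀ x ∈ R, x ∈ o) ∧ a ∉ o := by
  by_contra hcon
  push Not at hcon
  apply h
  have h1 : a ∈ (⨅ V : {V : ValuationSubring FF // (R : Set FF) ⊆ V.toSubring},
      V.1.toSubring) := by
    rw [Subring.mem_iInf]
    intro V
    exact hcon V.1 fun x hx => V.2 hx
  rw [iInf_valuationSubring_superset] at h1
  have h2 : IsIntegral (Subring.closure (R : Set FF)) a := h1
  obtain ⟨P, hP, hPa⟩ := h2
  have hle : Subring.closure (R : Set FF) ≤ R.toSubring := (Subring.closure_le).mpr fun x hx => hx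
  let φ : Subring.closure (R : Set FF) →+* R := Subring.inclusion hle
  refine ⟨P.map φ, hP.map φ, ?_⟩
  rw [eval₂_map]
  exact hPa

theorem exists_pow_mul_mem {v : ι → FF} (i : ι) (hi : v i ≠ 0) {x : FF}
    (hx : x ∈ Algebra.adjoin κ (insert (v i)⁻¹ (Set.range v))) :
    ∃ N : ℕ, v i ^ N * x ∈ Algebra.adjoin κ (Set.range v) := by
  have hvi : v i ∈ Algebra.adjoin κ (Set.range v) := Algebra.subset_adjoin ⟨i, rfl⟩
  induction hx using Algebra.adjoin_induction with
  | mem x hx =>
    rcases hx with rfl | hx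
    · exact ⟨1, by rw [pow_one, mul_inv_cancel₀ hi]; exact Subalgebra.one_mem _⟩
    · exact ⟨0, by rw [pow_zero, one_mul]; exact Algebra.subset_adjoin hx⟩
  | algebraMap r => exact ⟨0, by rw [pow_zero, one_mul]; exact Subalgebra.algebraMap_mem _ r⟩
  | add x y _ _ hx hy =>
    obtain ⟨M, hM⟩ := hx
    obtain ⟨N, hN⟩ := hy
    refine ⟨M + N, ?_⟩
    have : v i ^ (M + N) * (x + y) = v i ^ N * (v i ^ M * x) + v i ^ M * (v i ^ N * y) := by ring
    rw [this]
    exact Subalgebra.add_mem _ (Subalgebra.mul_mem _ (Subalgebra.pow_mem _ hvi _) hM)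
      (Subalgebra.mul_mem _ (Subalgebra.pow_mem _ hvi _) hN)
  | mul x y _ _ hx hy =>
    obtain ⟨M, hM⟩ := hx
    obtain ⟨N, hN⟩ := hy
    refine ⟨M + N, ?_⟩
    have : v i ^ (M + N) * (x * y) = (v i ^ M * x) * (v i ^ N * y) := by ring
    rw [this]
    exact Subalgebra.mul_mem _ hM hN

theorem exists_pow_mul_itg {v : ι → FF} (i : ι) (hi : v i ≠ 0) {a : FF}
    (ha : IsIntegral (Algebra.adjoin κ (insert (v i)⁻¹ (Set.range v))) a) :
    ∃ N : ℕ, Itg κ v (v i ^ N * a) := by
  obtain ⟨P, hP, hPa⟩ := ha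
  set n := P.natDegree with hn
  choose N hN using fun k => exists_pow_mul_mem i hi (P.coeff k).2
  set M := ∑ k ∈ Finset.range n, N k with hM
  have hMk : ∀ k < n, v i ^ M * ((P.coeff k : _) : FF) ∈ Algebra.adjoin κ (Set.range v) := by
    intro k hk
    have hle : N k ≤ M := Finset.single_le_sum (f := N) (fun _ _ => Nat.zero_le _)
      (Finset.mem_range.mpr hk)
    have : v i ^ M * ((P.coeff k : _) : FF) = v i ^ (M - N k) * (v i ^ N k * (P.coeff k : _)) := by
      rw [← mul_assoc, ← pow_add]; congr 2; omega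
    rw [this]
    exact Subalgebra.mul_mem _ (Subalgebra.pow_mem _
      (Algebra.subset_adjoin (s := Set.range v) (Set.mem_range_self i)) _) (hN k)
  refine ⟨M, itg_of_relation n
    (fun k => v i ^ (M * (n - k - 1)) * (v i ^ M * ((P.coeff k : _) : FF))) ?_ ?_⟩
  · intro k hk
    exact ((itg_var v i).pow _).mul (itg_of_mem (hMk k hk))
  · have h1 : eval₂ (algebraMap _ FF) a P = 0 := hPa
    rw [eval₂_eq_sum_range, Finset.sum_range_succ, ← hn] at h1
    have hlead : (algebraMap (Algebra.adjoin κ (insert (v i)⁻¹ (Set.range v))) FF)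
        (P.coeff n) = 1 := by
      rw [show P.coeff n = 1 from hP.coeff_natDegree, map_one]
    rw [hlead, one_mul] at h1
    have h2 : v i ^ (M * n) * (∑ k ∈ Finset.range n, (algebraMap
        (Algebra.adjoin κ (insert (v i)⁻¹ (Set.range v))) FF) (P.coeff k) * a ^ k + a ^ n) = 0 := by
      rw [h1, mul_zero]
    rw [← h2, mul_add, Finset.mul_sum, add_comm, mul_pow, ← pow_mul]
    congr 1
    refine Finset.sum_congr rfl fun k hk => ?_
    have hk' := Finset.mem_range.mp hk
    have e1 : M * n = M * (n - k - 1) + M + M * k := by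
      have e3 : n = (n - k - 1) + 1 + k := by omega
      calc M * n = M * ((n - k - 1) + 1 + k) := by rw [← e3]
        _ = _ := by ring
    rw [e1, pow_add, pow_add, mul_pow, ← pow_mul]
    have e2 : algebraMap (Algebra.adjoin κ (insert (v i)⁻¹ (Set.range v))) FF (P.coeff k) =
      ((P.coeff k : _) : FF) := rfl
    rw [e2]
    ring

theorem var_ne_zero {v : ι → FF} (hv : AlgebraicIndependent κ v) (i : ι) : v i ≠ 0 :=
  hv.ne_zero i

/-- (VRI) -/
theorem vri {v : ι → FF} (hv : AlgebraicIndependent κ v) {i j : ι} (hij : i ≠ j) {a : FF}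
    (h : ∀ o : ValuationSubring FF, (∀ x ∈ Algebra.adjoin κ (Set.range v), x ∈ o) →
      ((v i)⁻¹ ∈ o ∨ (v j)⁻¹ ∈ o) → a ∈ o) : Itg κ v a := by
  have key : ∀ l : ι, (l = i ∨ l = j) → ∃ N : ℕ, Itg κ v (v l ^ N * a) := by
    intro l hl
    refine exists_pow_mul_itg l (var_ne_zero hv l) ?_
    by_contra hcon
    obtain ⟨o, ho, hao⟩ := exists_valuationSubring _ hcon
    apply hao
    refine h o (fun x hx => ho x (Algebra.adjoin_mono (Set.subset_insert _ _) hx)) ?_
    have := ho (v l)⁻¹ (Algebra.subset_adjoin (Set.mem_insert _ _))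
    rcases hl with rfl | rfl
    · exact Or.inl this
    · exact Or.inr this
  obtain ⟨M, hM⟩ := key i (Or.inl rfl)
  obtain ⟨N, hN⟩ := key j (Or.inr rfl)
  exact s2 hv hij M N hM hN

theorem vri_iff {v : ι → FF} (hv : AlgebraicIndependent κ v) {i j : ι} (hij : i ≠ j) {a : FF} :
    Itg κ v a ↔ ∀ o : ValuationSubring FF, (∀ x ∈ Algebra.adjoin κ (Set.range v), x ∈ o) →
      ((v i)⁻¹ ∈ o ∨ (v j)⁻¹ ∈ o) → a ∈ o :=
  ⟨fun h o ho _ => mem_of_itg h o ho, vri hv hij⟩

end Pool.Agent.H62.HIL
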