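import Mathlib

/-!
# THEOREM S, chapter 5 (HIL): integrality over a polynomial ring, rows S2 and VRI
-/

set_option autoImplicit false

namespace Pool.Agent.H62.HIL

open Polynomial

/-- If `p • a` and `q • a` are integral over a factorial domain and `p`, `q` are coprime, then `a`
is integral. -/
theorem isIntegral_of_isRelPrime {A S : Type*} [CommRing A] [IsDomain A] [IsIntegrallyClosed A]
    [DecompositionMonoid A] [CommRing S] [IsDomain S] [Algebra A S] [Module.IsTorsionFree A S]
    {p q : A} (hp : p ≠ 0) (hq : q ≠ 0) (h : IsRelPrime p q) (a : S)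
    (h1 : IsIntegral A (p • a)) (h2 : IsIntegral A (q • a)) : IsIntegral A a := by
  have e : (minpoly A (p • a)).scaleRoots q = (minpoly A (q • a)).scaleRoots p := by
    rw [← IsIntegrallyClosed.minpoly_smul hq h1, ← IsIntegrallyClosed.minpoly_smul hp h2,
      smul_comm]
  set P := minpoly A (p • a) with hP
  set n := P.natDegree with hn
  have hmonic : P.Monic := minpoly.monic h1
  have hdeg : (minpoly A (q • a)).natDegree = n := by
    have := congrArg natDegree e
    rw [natDegree_scaleRoots, natDegree_scaleRoots] at this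
    exact this.symm
  have hdvd : ∀ i, p ^ (n - i) ∣ P.coeff i := by
    intro i
    have h3 := congrArg (fun r => r.coeff i) e
    simp only [coeff_scaleRoots] at h3
    rw [hdeg, ← hn] at h3
    have h4 : p ^ (n - i) ∣ P.coeff i * q ^ (n - i) := ⟨_, h3.trans (mul_comm _ _)⟩
    exact (h.pow (m := n - i) (n := n - i)).dvd_of_dvd_mul_right h4
  choose c hc using hdvd
  refine ⟨∑ i ∈ Finset.range (n + 1), monomial i (if i = n then 1 else c i), ?_, ?_⟩
  · refine monic_of_natDegree_le_of_coeff_eq_one n ?_ ?_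
    · exact natDegree_sum_le_of_forall_le _ _ fun i hi =>
        (natDegree_monomial_le _).trans (Nat.lt_succ_iff.mp (Finset.mem_range.mp hi))
    · rw [finset_sum_coeff]
      simp [coeff_monomial]
  · have h5 : aeval (p • a) P = 0 := minpoly.aeval _ _
    rw [aeval_eq_sum_range, ← hn] at h5
    rw [← aeval_def, map_sum]
    have hpn : p ^ n ≠ 0 := pow_ne_zero _ hp
    refine (smul_eq_zero_iff_right hpn).mp ?_
    rw [Finset.smul_sum, ← h5]
    refine Finset.sum_congr rfl fun i hi => ?_
    have hi' : i ≤ n := Nat.lt_succ_iff.mp (Finset.mem_range.mp hi)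
    rw [aeval_monomial, ← Algebra.smul_def, smul_smul, _root_.smul_pow, smul_smul]
    congr 1
    split_ifs with hin
    · subst hin
      rw [mul_one, show P.coeff n = 1 from hmonic.coeff_natDegree, one_mul]
    · rw [hc i]
      have : p ^ n = p ^ (n - i) * p ^ i := by rw [← pow_add]; congr 1; omega
      rw [this]; ring

variable {κ FF : Type*} [Field κ] [Field FF] [Algebra κ FF] {ι : Type*}

/-- integral over the polynomial ring `κ[v]` -/
def Itg (κ : Type*) {FF ι : Type*} [Field κ] [Field FF] [Algebra κ FF] (v : ι → FF) (a : FF) :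
    Prop := IsIntegral (Algebra.adjoin κ (Set.range v)) a

theorem itg_def {v : ι → FF} {a : FF} :
    Itg κ v a ↔ IsIntegral (Algebra.adjoin κ (Set.range v)) a := Iff.rfl

theorem itg_of_mem {v : ι → FF} {a : FF} (h : a ∈ Algebra.adjoin κ (Set.range v)) :
    Itg κ v a := isIntegral_algebraMap (R := Algebra.adjoin κ (Set.range v)) (x := ⟨a, h⟩)

theorem aeval_mem (v : ι → FF) (f : MvPolynomial ι κ) :
    MvPolynomial.aeval v f ∈ Algebra.adjoin κ (Set.range v) := by
  rw [Algebra.adjoin_range_eq_range_aeval]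
  exact ⟨f, rfl⟩

theorem itg_aeval (v : ι → FF) (f : MvPolynomial ι κ) : Itg κ v (MvPolynomial.aeval v f) :=
  itg_of_mem (aeval_mem v f)

theorem itg_var (v : ι → FF) (i : ι) : Itg κ v (v i) :=
  itg_of_mem (Algebra.subset_adjoin ⟨i, rfl⟩)

theorem itg_algebraMap (v : ι → FF) (c : κ) : Itg κ v (algebraMap κ FF c) :=
  itg_of_mem (Subalgebra.algebraMap_mem _ c)

theorem Itg.mul {v : ι → FF} {a b : FF} (ha : Itg κ v a) (hb : Itg κ v b) : Itg κ v (a * b) :=
  IsIntegral.mul ha hb

theorem Itg.add {v : ι → FF} {a b : FF} (ha : Itg κ v a) (hb : Itg κ v b) : Itg κ v (a + b) :=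
  IsIntegral.add ha hb

theorem Itg.neg {v : ι → FF} {a : FF} (ha : Itg κ v a) : Itg κ v (-a) := IsIntegral.neg ha

theorem Itg.sub {v : ι → FF} {a b : FF} (ha : Itg κ v a) (hb : Itg κ v b) : Itg κ v (a - b) :=
  IsIntegral.sub ha hb

theorem Itg.pow {v : ι → FF} {a : FF} (ha : Itg κ v a) (n : ℕ) : Itg κ v (a ^ n) :=
  IsIntegral.pow ha n

theorem itg_zero (v : ι → FF) : Itg κ v 0 := isIntegral_zero

theorem itg_one (v : ι → FF) : Itg κ v 1 := isIntegral_one

theorem itg_sum {v : ι → FF} {τ : Type*} (s : Finset τ) (f : τ → FF)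
    (h : ∀ i ∈ s, Itg κ v (f i)) : Itg κ v (∑ i ∈ s, f i) := IsIntegral.sum _ h

/-- the algebra `κ[v]` is a polynomial ring, hence factorial -/
theorem ufd {v : ι → FF} (hv : AlgebraicIndependent κ v) :
    UniqueFactorizationMonoid (Algebra.adjoin κ (Set.range v)) :=
  hv.aevalEquiv.toMulEquiv.uniqueFactorizationMonoid inferInstance

/-- (S2), general form -/
theorem itg_of_isRelPrime {v : ι → FF} (hv : AlgebraicIndependent κ v)
    {p q : MvPolynomial ι κ} (hp : p ≠ 0) (hq : q ≠ 0) (h : IsRelPrime p q) {a : FF}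
    (h1 : Itg κ v (MvPolynomial.aeval v p * a)) (h2 : Itg κ v (MvPolynomial.aeval v q * a)) :
    Itg κ v a := by
  haveI := ufd hv
  set A := Algebra.adjoin κ (Set.range v) with hA
  set e : MvPolynomial ι κ ≃ₐ[κ] A := hv.aevalEquiv
  have he : ∀ f, ((e f : A) : FF) = MvPolynomial.aeval v f := fun f => hv.algebraMap_aevalEquiv f
  have hrel : IsRelPrime (e p) (e q) := by
    intro d hd1 hd2
    have h3 : e.symm d ∣ p := by
      have := map_dvd e.symm hd1
      rwa [e.symm_apply_apply] at this
    have h4 : e.symm d ∣ q := by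
      have := map_dvd e.symm hd2
      rwa [e.symm_apply_apply] at this
    have h5 := (h h3 h4).map e
    rwa [e.apply_symm_apply] at h5
  refine isIntegral_of_isRelPrime (p := e p) (q := e q)
    ((map_ne_zero_iff e e.injective).mpr hp) ((map_ne_zero_iff e e.injective).mpr hq) hrel a ?_ ?_
  · rw [Algebra.smul_def]
    have : algebraMap A FF (e p) = MvPolynomial.aeval v p := he p
    rw [this]; exact h1
  · rw [Algebra.smul_def]
    have : algebraMap A FF (e q) = MvPolynomial.aeval v q := he q
    rw [this]; exact h2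

theorem isRelPrime_X {i j : ι} (hij : i ≠ j) (M N : ℕ) :
    IsRelPrime ((MvPolynomial.X i : MvPolynomial ι κ) ^ M) (MvPolynomial.X j ^ N) := by
  apply IsRelPrime.pow
  have hi : Irreducible (MvPolynomial.X i : MvPolynomial ι κ) :=
    (MvPolynomial.X_prime (R := κ) (i := i)).irreducible
  rw [hi.isRelPrime_iff_not_dvd]
  intro h
  exact hij (MvPolynomial.X_dvd_X.mp h)

/-- (S2) -/
theorem s2 {v : ι → FF} (hv : AlgebraicIndependent κ v) {i j : ι} (hij : i ≠ j) (M N : ℕ) {a : FF}
    (h1 : Itg κ v (v i ^ M * a)) (h2 : Itg κ v (v j ^ N * a)) : Itg κ v a := by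
  refine itg_of_isRelPrime hv (p := MvPolynomial.X i ^ M) (q := MvPolynomial.X j ^ N)
    (pow_ne_zero _ (MvPolynomial.X_ne_zero i)) (pow_ne_zero _ (MvPolynomial.X_ne_zero j))
    (isRelPrime_X hij M N) ?_ ?_
  · simpa using h1
  · simpa using h2

end Pool.Agent.H62.HIL
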