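import Pool.Agent.H62.HIL.LMH

/-!
# THEOREM S, chapter 5 (HIL): the targets SAT VRI GVR GVM NGD STP LMH
-/

set_option autoImplicit false

namespace Pool.Agent.H62.HIL

open MvPolynomial Pool.Agent.H3.SF Pool.Agent.H92.SF
open scoped IntermediateField.algebraAdjoinAdjoin

theorem pfr_SAT : T_SAT := by
  intro k F _ _ _ n v hv p q hpq a h1 h2
  rw [itg_iff] at h1 h2 ⊢
  have unit : ∀ r : MvPolynomial (Fin n) k, IsUnit r →
      Pool.Agent.H62.HIL.Itg k v (aeval v r * a) → Pool.Agent.H62.HIL.Itg k v a := by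
    rintro r ⟨w, rfl⟩ h
    have h3 : a = aeval v ((w⁻¹ : (MvPolynomial (Fin n) k)ˣ) : MvPolynomial (Fin n) k) *
        (aeval v (w : MvPolynomial (Fin n) k) * a) := by
      rw [← mul_assoc, ← map_mul, Units.inv_mul, map_one, one_mul]
    rw [h3]
    exact (itg_aeval v _).mul h
  by_cases hp : p = 0
  · subst hp
    exact unit q (hpq (dvd_zero q) dvd_rfl) h2
  by_cases hq : q = 0
  · subst hq
    exact unit p (hpq dvd_rfl (dvd_zero p)) h1
  exact itg_of_isRelPrime hv hp hq hpq h1 h2

theorem pfr_VRI : T_VRI := by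
  intro k F _ _ _ n v hn hv a
  have hle : ∀ o : ValuationSubring F, (∀ c : k, algebraMap k F c ∈ o) → (∀ i, v i ∈ o) →
      ∀ x ∈ Algebra.adjoin k (Set.range v), x ∈ o := by
    intro o h1 h2 x hx
    induction hx using Algebra.adjoin_induction with
    | mem x hx =>
      obtain ⟨i, rfl⟩ := hx
      exact h2 i
    | algebraMap r => exact h1 r
    | add x y _ _ hx hy => exact o.add_mem _ _ hx hy
    | mul x y _ _ hx hy => exact o.mul_mem _ _ hx hy
  constructor
  · intro h o ho
    exact mem_of_itg (itg_iff.mp h) o (hle o ho.con ho.mem)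
  · intro h
    rw [itg_iff]
    have hij : (⟨0, by omega⟩ : Fin n) ≠ ⟨1, by omega⟩ := by
      intro hcon
      exact absurd (congrArg Fin.val hcon) (by norm_num)
    refine vri hv hij fun o ho hinv => h o ⟨fun c => ho _ (Subalgebra.algebraMap_mem _ c),
      fun i => ho _ (Algebra.subset_adjoin (Set.mem_range_self i)), ?_⟩
    rcases hinv with h1 | h1
    · exact ⟨_, hv.ne_zero _, h1⟩
    · exact ⟨_, hv.ne_zero _, h1⟩

/-- Gauss lemma for powers -/
theorem gvr_gen {L σ : Type} [Field L] (o : ValuationSubring L) (r : ℕ) :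
    ∀ (P N : Polynomial (MvPolynomial σ L)),
    (∀ (j : ℕ) (a : σ →₀ ℕ), ((P ^ r * N).coeff j).coeff a ∈ o) →
    ∀ (α : Fin r → L), (∀ i, ∃ (j : ℕ) (a : σ →₀ ℕ), α i = (P.coeff j).coeff a) →
    ∀ (j : ℕ) (a : σ →₀ ℕ), (∏ i, α i) * (N.coeff j).coeff a ∈ o := by
  induction r with
  | zero =>
    intro P N h α _ j a
    have := h j a
    rw [pow_zero, one_mul] at this
    simpa using this
  | succ r ih =>
    intro P N h α hα j a
    obtain ⟨j0, a0, h0⟩ := hα 0
    have h1 : ∀ (j : ℕ) (a : σ →₀ ℕ), ((P ^ r * (Polynomial.C (C (α 0)) * N)).coeff j).coeff a ∈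
        o := by
      intro j a
      have h2 := mem_of_mul o P (P ^ r * N) (fun j m => by
        have := h j m
        rwa [pow_succ', mul_assoc] at this) j0 a0 j a
      have h3 : P ^ r * (Polynomial.C (C (α 0)) * N) = Polynomial.C (C (α 0)) * (P ^ r * N) := by
        ring
      rw [h3, Polynomial.coeff_C_mul, coeff_C_mul, h0]
      exact h2
    have h4 := ih P (Polynomial.C (C (α 0)) * N) h1 (fun i => α i.succ) (fun i => hα i.succ) j a
    rw [Polynomial.coeff_C_mul, coeff_C_mul] at h4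
    rw [Fin.prod_univ_succ]
    have h5 : α 0 * (∏ i : Fin r, α i.succ) * (N.coeff j).coeff a =
        (∏ i : Fin r, α i.succ) * (α 0 * (N.coeff j).coeff a) := by ring
    rw [h5]
    exact h4

theorem pfr_GVR : T_GVR := by
  intro L _ o r P N h α hα j a
  exact gvr_gen o r P N h α hα j a

theorem pfr_GVM : T_GVM := by
  intro L _ o n r P N h α hα a
  have h1 := gvr_gen o r (Polynomial.C P) (Polynomial.C N) (fun j m => by
    rw [← map_pow, ← map_mul, Polynomial.coeff_C]
    split_ifs
    · exact h m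
    · rw [coeff_zero]; exact o.zero_mem) α (fun i => by
    obtain ⟨m, hm⟩ := hα i
    exact ⟨0, m, by rw [Polynomial.coeff_C_zero]; exact hm⟩) 0 a
  rwa [Polynomial.coeff_C_zero] at h1

theorem hd_hm {k F : Type} [Field k] [Field F] [Algebra k F] {n : ℕ} {v : Fin n → F}
    {E : Derivation k F F} {d : ℕ} (h : Hd k v E d) (i : Fin n) : Hm k E 1 (v i) := by
  unfold Hm
  rw [h.eul]; simp

theorem hd_fin {k F : Type} [Field k] [Field F] [Algebra k F] {n : ℕ} {v : Fin n → F}
    {E : Derivation k F F} {d : ℕ} (h : Hd k v E d) : FiniteDimensional (kF k v) F :=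
  FiniteDimensional.of_finrank_pos (by rw [h.deg]; exact h.pos)

theorem charZero_of {k F : Type} [Field k] [CharZero k] [Field F] [Algebra k F] : CharZero F :=
  charZero_of_injective_algebraMap (FaithfulSMul.algebraMap_injective k F)

theorem pfr_NGD : T_NGD := by
  intro k F _ _ _ _ n d v E hd
  haveI : CharZero F := charZero_of (k := k)
  haveI := hd_fin hd
  refine ⟨fun t a ht h1 h2 => ?_, fun t a h1 h2 => ?_⟩
  · have h3 : a ∈ BB k v E t := ⟨h1, h2⟩
    rw [bb_neg (hd_hm hd) ht] at h3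
    exact (Submodule.mem_bot k).mp h3
  · obtain ⟨N, hN, hN'⟩ := norm_hom hd.ind (hd_hm hd) (t := t) (a := a) ⟨h1, h2⟩
    rw [hd.deg] at hN
    refine ⟨N, hN, hN', fun ha hcon => ?_⟩
    subst hcon
    rw [map_zero] at hN'
    have : Algebra.norm (kF k v) a = 0 := Subtype.ext hN'
    exact ha (Algebra.norm_eq_zero_iff.mp this)

theorem pfr_LMH : T_LMH := by
  intro k F _ _ _ _ d v E hd t W hW h H hH h0 hdiv
  haveI : CharZero F := charZero_of (k := k)
  haveI := hd_fin hd
  haveI := bb_finite hd.ind (hd_hm hd) t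
  refine ⟨Submodule.finiteDimensional_of_le hW, fun hne => ?_⟩
  have h1 := lmh hd.ind (hd_hm hd) t W hW h H hH h0 hdiv hne
  rwa [hd.deg] at h1

theorem pfr_STP : T_STP := by
  intro k F _ _ _ _ d v E hd x y hxy t j s hs hsB
  haveI : CharZero F := charZero_of (k := k)
  haveI := hd_fin hd
  obtain ⟨M, N, hMN, hNM, hM0⟩ : ∃ M N : Matrix (Fin 2) (Fin 2) k, M * N = 1 ∧ N * M = 1 ∧
      (M 0 0 = x ∧ M 0 1 = y) := by
    by_cases hx : x = 0
    · have hy : y ≠ 0 := by
        rcases hxy with h | h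
        · exact absurd hx h
        · exact h
      refine ⟨!![0, y; 1, 0], !![0, 1; y⁻¹, 0], ?_, ?_, by simp [hx]⟩
      · rw [Matrix.mul_fin_two, Matrix.one_fin_two]; simp [hy]
      · rw [Matrix.mul_fin_two, Matrix.one_fin_two]; simp [hy]
    · refine ⟨!![x, y; 0, 1], !![x⁻¹, -(x⁻¹ * y); 0, 1], ?_, ?_, by simp⟩
      · rw [Matrix.mul_fin_two, Matrix.one_fin_two]; simp [hx]
      · rw [Matrix.mul_fin_two, Matrix.one_fin_two]; simp [hx]
  set v' := linv M v with hv'
  have hk : kF k v' = kF k v := kF_linv hNM v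
  have hv'ind : AlgebraicIndependent k v' := linv_ind hMN hd.ind
  have key : ∀ (K : IntermediateField k F), K = kF k v →
      Module.finrank K F = Module.finrank (kF k v) F ∧
      (FiniteDimensional (kF k v) F → FiniteDimensional K F) := by
    rintro K rfl
    exact ⟨rfl, fun h => h⟩
  haveI : FiniteDimensional (kF k v') F := (key _ hk).2 inferInstance
  have hfr : Module.finrank (kF k v') F = d := by rw [(key _ hk).1, hd.deg]
  set W : Submodule k F := Submodule.span k (Set.range s) with hW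
  have hWB : W ≤ BB k v' E t := by
    rw [bb_linv hNM]
    refine Submodule.span_le.mpr ?_
    rintro _ ⟨i, rfl⟩
    exact hsB i
  have hWf : Module.finrank k W = d * j + 1 := by
    rw [hW, finrank_span_eq_card hs, Fintype.card_fin]
  obtain ⟨w, hw, hw0, b, hb, hwb⟩ := stp_pow hv'ind (fun i => hm_linv M (hd_hm hd) i) j t W hWB
    (by rw [hfr, hWf]; omega)
  obtain ⟨c, hc⟩ := (Submodule.mem_span_range_iff_exists_fun k).mp hw
  refine ⟨c, ?_, b, ?_, ?_⟩
  · rintro rfl
    apply hw0
    rw [← hc]; simp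
  · rwa [bb_linv hNM] at hb
  · rw [hc, hwb]
    have : v' 0 = x • v 0 + y • v 1 := by
      rw [hv']
      unfold linv
      rw [Fin.sum_univ_two, hM0.1, hM0.2]
    rw [this]

end Pool.Agent.H62.HIL
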