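import Pool.Agent.H62.HIL.S2

/-!
# THEOREM S, chapter 5: general rows VRC, SAT, KRO, MON
-/

set_option autoImplicit false

namespace Pool.Agent.H62.HIL

open Polynomial

section VRC

variable {A F : Type*} [CommRing A] [Field F]

theorem mem_of_isIntegralElem {φ : A →+* F} {z : F} (h : φ.IsIntegralElem z)
    (V : ValuationSubring F) (hV : ∀ a, φ a ∈ V) : z ∈ V := by
  obtain ⟨P, hP, hPa⟩ := h
  have h1 : IsIntegral V z := by
    let ψ : A →+* V := φ.codRestrict V.toSubring hV
    refine ⟨P.map ψ, hP.map ψ, ?_⟩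
    rw [eval₂_map]
    exact hPa
  obtain ⟨y, hy⟩ := IsIntegrallyClosed.isIntegral_iff.mp h1
  rw [← hy]
  exact y.2

/-- (VRC) an element is integral iff it lies in all valuation subrings containing the image -/
theorem pf_VRC (φ : A →+* F) (z : F) :
    φ.IsIntegralElem z ↔ ∀ V : ValuationSubring F, (∀ a, φ a ∈ V) → z ∈ V := by
  refine ⟨fun h V hV => mem_of_isIntegralElem h V hV, fun h => ?_⟩
  have h1 : z ∈ (⨅ V : {V : ValuationSubring F // (φ.range : Set F) ⊆ V.toSubring},
      V.1.toSubring) := by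
    rw [Subring.mem_iInf]
    intro V
    exact h V.1 fun a => V.2 ⟨a, rfl⟩
  rw [iInf_valuationSubring_superset] at h1
  have h2 : IsIntegral (Subring.closure (φ.range : Set F)) z := h1
  obtain ⟨P, hP, hPa⟩ := h2
  have hle : Subring.closure (φ.range : Set F) ≤ φ.range :=
    (Subring.closure_le).mpr fun x hx => hx
  let ψ : Subring.closure (φ.range : Set F) →+* φ.range := Subring.inclusion hle
  have hQ : IsIntegral φ.range z := by
    refine ⟨P.map ψ, hP.map ψ, ?_⟩
    rw [eval₂_map]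
    exact hPa
  obtain ⟨Q, hQ, hQa⟩ := hQ
  have hsurj : Function.Surjective φ.rangeRestrict := φ.rangeRestrict_surjective
  have hlift : Q ∈ Polynomial.lifts φ.rangeRestrict := by
    rw [Polynomial.lifts_iff_coeff_lifts]
    intro n
    exact hsurj _
  obtain ⟨R, hR1, hR2, hR3⟩ := lifts_and_degree_eq_and_monic hlift hQ
  refine ⟨R, hR3, ?_⟩
  rw [← hR1, eval₂_map] at hQa
  exact hQa

end VRC

/-- (SAT) -/
theorem pf_SAT {A F : Type*} [CommRing A] [IsDomain A] [UniqueFactorizationMonoid A] [Field F]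
    (φ : A →+* F) (hφ : Function.Injective φ) {s l : A} (hsl : IsRelPrime s l) (hs : s ≠ 0)
    (hl : l ≠ 0) {r : F} (h1 : φ.IsIntegralElem (φ s * r)) (h2 : φ.IsIntegralElem (φ l * r)) :
    φ.IsIntegralElem r := by
  letI : Algebra A F := φ.toAlgebra
  haveI : FaithfulSMul A F := (faithfulSMul_iff_algebraMap_injective A F).mpr hφ
  haveI : Module.IsTorsionFree A F := inferInstance
  have := isIntegral_of_isRelPrime (A := A) (S := F) hs hl hsl r
    (by rw [Algebra.smul_def]; exact h1) (by rw [Algebra.smul_def]; exact h2)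
  exact this

section KRO

variable {A F σ : Type*} [CommRing A] [Field F]

/-- extraction of the content of a nonzero polynomial over a valuation ring -/
theorem exists_content (V : ValuationSubring F) {f : Polynomial (MvPolynomial σ F)} (hf : f ≠ 0) :
    ∃ (c : F) (f' : Polynomial (MvPolynomial σ V)), c ≠ 0 ∧
      f = C (MvPolynomial.C c) * f'.map (MvPolynomial.map V.subtype) ∧
      f'.map (MvPolynomial.map (IsLocalRing.residue V)) ≠ 0 := by
  classical
  let S : Finset (Σ _ : ℕ, (σ →₀ ℕ)) := f.support.sigma fun j => (f.coeff j).support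
  have hS : S.Nonempty := by
    obtain ⟨j, hj⟩ := nonempty_support_iff.mpr hf
    have hj' : f.coeff j ≠ 0 := mem_support_iff.mp hj
    obtain ⟨m, hm⟩ := MvPolynomial.support_nonempty.mpr hj'
    exact ⟨⟨j, m⟩, Finset.mem_sigma.mpr ⟨hj, hm⟩⟩
  obtain ⟨⟨j, m⟩, hjm, hmax⟩ := Finset.exists_max_image S
    (fun x => V.valuation ((f.coeff x.1).coeff x.2)) hS
  have hjm' := Finset.mem_sigma.mp hjm
  set c := (f.coeff j).coeff m with hc
  have hc0 : c ≠ 0 := MvPolynomial.mem_support_iff.mp hjm'.2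
  have hle : ∀ j' m', c⁻¹ * (f.coeff j').coeff m' ∈ V := by
    intro j' m'
    by_cases h0 : (f.coeff j').coeff m' = 0
    · rw [h0, mul_zero]; exact V.zero_mem
    · have hmem : (⟨j', m'⟩ : Σ _ : ℕ, (σ →₀ ℕ)) ∈ S := by
        refine Finset.mem_sigma.mpr ⟨?_, MvPolynomial.mem_support_iff.mpr h0⟩
        rw [mem_support_iff]
        intro h; exact h0 (by rw [h]; simp)
      have := hmax _ hmem
      rw [← V.valuation_le_one_iff, map_mul, map_inv₀]
      have hv : V.valuation c ≠ 0 := (Valuation.ne_zero_iff _).mpr hc0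
      calc (V.valuation c)⁻¹ * V.valuation ((f.coeff j').coeff m')
          ≤ (V.valuation c)⁻¹ * V.valuation c := mul_le_mul_right this _
        _ = 1 := inv_mul_cancel₀ hv
  have hrange : C (MvPolynomial.C c⁻¹) * f ∈
      Polynomial.lifts (MvPolynomial.map (σ := σ) V.subtype) := by
    rw [Polynomial.lifts_iff_coeff_lifts]
    intro n
    have h1 : MvPolynomial.C c⁻¹ * f.coeff n ∈ (MvPolynomial.map (σ := σ) V.subtype).range := by
      refine MvPolynomial.mem_range_map_iff_coeffs_subset.mpr ?_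
      intro x hx
      obtain ⟨m', _, rfl⟩ := MvPolynomial.mem_coeffs_iff.mp hx
      rw [MvPolynomial.coeff_C_mul]
      exact ⟨⟨_, hle n m'⟩, rfl⟩
    rw [coeff_C_mul]
    exact h1
  obtain ⟨f', hf''⟩ := (Polynomial.mem_lifts _).mp hrange
  refine ⟨c, f', hc0, ?_, ?_⟩
  · rw [hf'', ← mul_assoc, ← C_mul, ← MvPolynomial.C_mul, mul_inv_cancel₀ hc0]
    simp
  · intro h0
    have h1 : MvPolynomial.coeff m ((f'.map (MvPolynomial.map (IsLocalRing.residue V))).coeff j) =
        0 := by rw [h0]; simp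
    rw [coeff_map, MvPolynomial.coeff_map] at h1
    have h2 : V.subtype (MvPolynomial.coeff m (f'.coeff j)) = 1 := by
      rw [← MvPolynomial.coeff_map, ← coeff_map, hf'', coeff_C_mul, MvPolynomial.coeff_C_mul,
        ← hc, inv_mul_cancel₀ hc0]
    have h3 : MvPolynomial.coeff m (f'.coeff j) = 1 := Subtype.ext h2
    rw [h3, map_one] at h1
    exact one_ne_zero h1

theorem mem_of_mul (V : ValuationSubring F) (f g : Polynomial (MvPolynomial σ F))
    (h : ∀ j m, ((f * g).coeff j).coeff m ∈ V) (j : ℕ) (m : σ →₀ ℕ) (j' : ℕ) (m' : σ →₀ ℕ) :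
    (f.coeff j).coeff m * (g.coeff j').coeff m' ∈ V := by
  by_cases hf : f = 0
  · rw [hf]; simp
  by_cases hg : g = 0
  · rw [hg]; simp
  obtain ⟨c, f', hc, hf1, hf2⟩ := exists_content V hf
  obtain ⟨d, g', hd, hg1, hg2⟩ := exists_content V hg
  have hprod : (f' * g').map (MvPolynomial.map (IsLocalRing.residue V)) ≠ 0 := by
    rw [Polynomial.map_mul]
    exact mul_ne_zero hf2 hg2
  obtain ⟨n, hn⟩ : ∃ n, ((f' * g').map (MvPolynomial.map (IsLocalRing.residue V))).coeff n ≠ 0 := by
    by_contra hcon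
    push Not at hcon
    exact hprod (Polynomial.ext fun n => by rw [hcon n]; simp)
  obtain ⟨p, hp⟩ := MvPolynomial.exists_coeff_ne_zero hn
  rw [coeff_map, MvPolynomial.coeff_map] at hp
  set u := MvPolynomial.coeff p ((f' * g').coeff n) with hu
  have hunit : IsUnit u := by
    by_contra hcon
    exact hp ((IsLocalRing.residue_eq_zero_iff u).mpr hcon)
  have hcd : c * d * (u : F) ∈ V := by
    have h1 := h n p
    have h2 : f * g = C (MvPolynomial.C (c * d)) *
        (f' * g').map (MvPolynomial.map V.subtype) := by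
      rw [hf1, hg1, Polynomial.map_mul, MvPolynomial.C_mul, C_mul]; ring
    rw [h2, coeff_C_mul, MvPolynomial.coeff_C_mul, coeff_map, MvPolynomial.coeff_map] at h1
    exact h1
  have hcd' : c * d ∈ V := by
    obtain ⟨w, hw⟩ := hunit
    have h3 : (u : F) * (((w⁻¹ : Vˣ) : V) : F) = 1 := by
      have : u * ((w⁻¹ : Vˣ) : V) = 1 := by rw [← hw]; exact w.mul_inv
      exact_mod_cast congrArg (fun x : V => (x : F)) this
    have h4 : c * d = c * d * (u : F) * (((w⁻¹ : Vˣ) : V) : F) := by
      rw [mul_assoc, h3, mul_one]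
    rw [h4]
    exact V.mul_mem _ _ hcd (((w⁻¹ : Vˣ) : V)).2
  have e1 : (f.coeff j).coeff m = c * (((f'.coeff j).coeff m : V) : F) := by
    conv_lhs => rw [hf1]
    rw [coeff_C_mul, MvPolynomial.coeff_C_mul, coeff_map, MvPolynomial.coeff_map]
    rfl
  have e2 : (g.coeff j').coeff m' = d * (((g'.coeff j').coeff m' : V) : F) := by
    conv_lhs => rw [hg1]
    rw [coeff_C_mul, MvPolynomial.coeff_C_mul, coeff_map, MvPolynomial.coeff_map]
    rfl
  have e3 : (f.coeff j).coeff m * (g.coeff j').coeff m' =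
      c * d * ((((f'.coeff j).coeff m * (g'.coeff j').coeff m' : V)) : F) := by
    rw [e1, e2]
    push_cast
    ring
  rw [e3]
  exact V.mul_mem _ _ hcd' (Subtype.mem _)

/-- (KRO) -/
theorem pf_KRO (φ : A →+* F) (f g : Polynomial (MvPolynomial σ F))
    (h : ∀ j m, φ.IsIntegralElem (((f * g).coeff j).coeff m)) (j : ℕ) (m : σ →₀ ℕ) (j' : ℕ)
    (m' : σ →₀ ℕ) : φ.IsIntegralElem ((f.coeff j).coeff m * (g.coeff j').coeff m') := by
  rw [pf_VRC]
  intro V hV
  exact mem_of_mul V f g (fun j m => (pf_VRC φ _).mp (h j m) V hV) j m j' m'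

end KRO

section MON

variable {A F : Type*} [CommRing A] [CommRing F]

/-- (MON), first half -/
theorem pf_MON (φ : A →+* F) {Y a b : F} {k : ℕ} (ha : φ.IsIntegralElem (Y * a ^ k))
    (hb : φ.IsIntegralElem (Y * b ^ k)) (i : ℕ) (hi : i ≤ k) :
    φ.IsIntegralElem (Y * a ^ i * b ^ (k - i)) := by
  letI : Algebra A F := φ.toAlgebra
  rcases Nat.eq_zero_or_pos k with rfl | hk
  · obtain rfl : i = 0 := by omega
    simpa using ha
  · have h1 : IsIntegral A ((Y * a ^ i * b ^ (k - i)) ^ k) := by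
      have e : (Y * a ^ i * b ^ (k - i)) ^ k = (Y * a ^ k) ^ i * (Y * b ^ k) ^ (k - i) := by
        obtain ⟨l, rfl⟩ := Nat.exists_eq_add_of_le hi
        rw [Nat.add_sub_cancel_left]
        ring
      rw [e]
      exact (IsIntegral.pow ha i).mul (IsIntegral.pow hb (k - i))
    exact IsIntegral.of_pow hk h1

/-- (MON), second half -/
theorem pf_MON' (φ : A →+* F) {Y a b c d : F} {k : ℕ} (ha : φ.IsIntegralElem (Y * a ^ k))
    (hb : φ.IsIntegralElem (Y * b ^ k)) (hc : φ.IsIntegralElem c) (hd : φ.IsIntegralElem d) :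
    φ.IsIntegralElem (Y * (c * a + d * b) ^ k) := by
  letI : Algebra A F := φ.toAlgebra
  have e : Y * (c * a + d * b) ^ k = ∑ i ∈ Finset.range (k + 1),
      (c ^ i * d ^ (k - i) * (k.choose i : F)) * (Y * a ^ i * b ^ (k - i)) := by
    rw [add_pow, Finset.mul_sum]
    refine Finset.sum_congr rfl fun i _ => ?_
    rw [mul_pow, mul_pow]; ring
  rw [e]
  refine IsIntegral.sum (R := A) _ fun i hi => ?_
  have hi' : i ≤ k := Nat.lt_succ_iff.mp (Finset.mem_range.mp hi)
  refine IsIntegral.mul (IsIntegral.mul (IsIntegral.mul (IsIntegral.pow hc i)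
    (IsIntegral.pow hd (k - i))) ?_) (pf_MON φ ha hb i hi')
  have : (k.choose i : F) = algebraMap A F (k.choose i : A) := by simp
  rw [this]
  exact isIntegral_algebraMap

end MON

end Pool.Agent.H62.HIL
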