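import Pool.Agent.H3.SF.Tg1
import Pool.Agent.H62.HIL.Dim2

/-!
# THEOREM S, chapter 5 (HIL): further targets
-/

set_option autoImplicit false

namespace Pool.Agent.H62.HIL

open MvPolynomial SC Pool.Agent.H27.LV
open Pool.Agent.H92.SF Pool.Agent.H3.SF

/-- PEN: the pencil of lines `u 1 = λ u 0` -/
def T_PEN : Prop := ∀ (k F : Type) [Field k] [CharZero k] [Field F] [Algebra k F] (d : ℕ)
  (u : Fin 3 → F) (E : Derivation k F F), Hd k u E d →
  (∃ E' : Derivation (IntermediateField.adjoin k {u 1 / u 0}) F F, (∀ a, E' a = E a) ∧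
    Hd (IntermediateField.adjoin k {u 1 / u 0}) ![u 0, u 2] E' d) ∧
  ∀ a, Pool.Agent.H3.SF.Itg k u a →
    Pool.Agent.H3.SF.Itg (IntermediateField.adjoin k {u 1 / u 0}) ![u 0, u 2] a

/-- the restriction `π` to the curve `G = 0` -/
structure Dcp {k F LL : Type} [Field k] [Field F] [Algebra k F] [Field LL] [Algebra k LL]
    (u : Fin 3 → F) (G : F) (π : Bb k u →ₐ[k] LL) : Prop where
  ker : ∀ b : Bb k u, π b = 0 ↔ Pool.Agent.H3.SF.Itg k u ((b : F) / G)
  sur : ∀ z : LL, ∃ b c : Bb k u, π c ≠ 0 ∧ z * π c = π b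

/-- DC1: the field of the curve -/
def T_DC1 : Prop := ∀ (k F : Type) [Field k] [IsAlgClosed k] [CharZero k] [Field F] [Algebra k F]
  (u : Fin 3 → F) (dd : Fin 3 → Derivation k F F) (δ j0 c0 : ℕ) (J : MvPolynomial (Fin 3) k),
  Sfc u dd δ j0 c0 J → ∀ (m : ℕ) (G : F), 1 ≤ m → Crd u dd m G →
  ∃ (LL : Type) (_ : Field LL) (_ : Algebra k LL) (π : Bb k u →ₐ[k] LL), Dcp u G π

/-- DC2: the Euler derivation of the field of the curve -/
def T_DC2 : Prop := ∀ (k F : Type) [Field k] [IsAlgClosed k] [CharZero k] [Field F] [Algebra k F]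
  (u : Fin 3 → F) (dd : Fin 3 → Derivation k F F) (δ j0 c0 : ℕ) (J : MvPolynomial (Fin 3) k),
  Sfc u dd δ j0 c0 J → ∀ (m : ℕ) (G : F), 1 ≤ m → Crd u dd m G →
  ∀ (LL : Type) [Field LL] [Algebra k LL] (π : Bb k u →ₐ[k] LL), Dcp u G π →
  ∃ EL : Derivation k LL LL, ∀ b b' : Bb k u, (b' : F) = eu u dd b → EL (π b) = π b'

/-- DC3: two linear forms over which the restrictions are integral -/
def T_DC3 : Prop := ∀ (k F : Type) [Field k] [IsAlgClosed k] [CharZero k] [Field F] [Algebra k F]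
  (u : Fin 3 → F) (dd : Fin 3 → Derivation k F F) (δ j0 c0 : ℕ) (J : MvPolynomial (Fin 3) k),
  Sfc u dd δ j0 c0 J → ∀ (m : ℕ) (G : F), 1 ≤ m → Crd u dd m G →
  ∀ (LL : Type) [Field LL] [Algebra k LL] (π : Bb k u →ₐ[k] LL), Dcp u G π →
  ∃ v : Fin 2 → LL, AlgebraicIndependent k v ∧
    (∀ i, ∃ (a : Fin 3 → k) (b : Bb k u), (b : F) = ∑ j, a j • u j ∧ v i = π b) ∧
    ∀ b : Bb k u, Pool.Agent.H3.SF.Itg k v (π b)

/-- DC4: the field of the curve is finite over the field of the two linear forms -/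
def T_DC4 : Prop := ∀ (k F : Type) [Field k] [IsAlgClosed k] [CharZero k] [Field F] [Algebra k F]
  (u : Fin 3 → F) (dd : Fin 3 → Derivation k F F) (δ j0 c0 : ℕ) (J : MvPolynomial (Fin 3) k),
  Sfc u dd δ j0 c0 J → ∀ (G : F) (LL : Type) [Field LL] [Algebra k LL] (π : Bb k u →ₐ[k] LL),
  Dcp u G π → ∀ v : Fin 2 → LL, AlgebraicIndependent k v →
  (∀ b : Bb k u, Pool.Agent.H3.SF.Itg k v (π b)) → FiniteDimensional (kF k v) LL

/-- assembly of DCX -/
theorem pf_DCX (h1 : T_DC1) (h2 : T_DC2) (h3 : T_DC3) (h4 : T_DC4) : T_DCX := by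
  intro k F _ _ _ _ _ u dd δ j0 c0 J hS m G hm hG
  obtain ⟨LL, i1, i2, π, hπ⟩ := h1 k F u dd δ j0 c0 J hS m G (by omega) hG
  obtain ⟨EL, hEL⟩ := h2 k F u dd δ j0 c0 J hS m G (by omega) hG LL π hπ
  obtain ⟨v, hv, hlin, hint⟩ := h3 k F u dd δ j0 c0 J hS m G (by omega) hG LL π hπ
  haveI := h4 k F u dd δ j0 c0 J hS G LL π hπ v hv hint
  refine ⟨LL, i1, i2, π, v, EL, Module.finrank (kF k v) LL, ?_⟩
  refine ⟨⟨hv, rfl, Module.finrank_pos, ?_⟩, hπ.ker, hπ.sur, hlin, hint, hEL⟩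
  intro i
  obtain ⟨a, b, hb, hvb⟩ := hlin i
  have he : eu u dd (b : F) = b := by
    have h5 : ∀ j, eu u dd (u j) = u j := by
      intro j
      unfold eu
      rw [Fin.sum_univ_three]
      simp only [Derivation.add_apply, Derivation.smul_apply, hS.du, smul_eq_mul]
      fin_cases j <;> simp
    rw [hb, map_sum]
    refine Finset.sum_congr rfl fun j _ => ?_
    rw [Derivation.map_smul, h5]
  rw [hvb, hEL b b he.symm]

end Pool.Agent.H62.HIL
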