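import Pool.Agent.H62.HIL.Rows
import Pool.Agent.H62.HIL.Tg
import Pool.Agent.H14.SFH.MPH
import Pool.Agent.H14.SFH.HMP
import Pool.Agent.H35.SFH.NDV
import Pool.Agent.H30.SFH.NRM
import Pool.Agent.H30.SFH.DEN
import Pool.Agent.H30.SFH.DC1
import Pool.Agent.H49.SFH.DC2
import Pool.Agent.H91.SFH.DC3
import Pool.Agent.H56.SFH.DC4
import Pool.Agent.H91.SFH.DCD
import Pool.Agent.H91.SFH.SF1
import Pool.Agent.H91.SFH.HDN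
import Pool.Agent.H94.SFH.SF2
import Pool.Agent.H94.SFH.CLS
import Pool.Agent.H77.SFH.PEN

/-!
# Chapter 5 of THEOREM S: all targets of `H3/SF/Tg1.lean`, without hypotheses
-/

namespace Pool.Agent.H62.HIL

open Pool.Agent.H3.SF

theorem c5_SAT : T_SAT := pfr_SAT
theorem c5_VRI : T_VRI := pfr_VRI
theorem c5_GVR : T_GVR := pfr_GVR
theorem c5_GVM : T_GVM := pfr_GVM
theorem c5_MPH : T_MPH := Pool.Agent.H14.SFH.pf_MPH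
theorem c5_HMP : T_HMP := Pool.Agent.H14.SFH.pf_HMP
theorem c5_NGD : T_NGD := pfr_NGD
theorem c5_NDV : T_NDV := Pool.Agent.H35.SFH.pf_NDV
theorem c5_STP : T_STP := pfr_STP
theorem c5_LMH : T_LMH := pfr_LMH
theorem c5_NRM : T_NRM := Pool.Agent.H30.SFH.pf_NRM
theorem c5_DEN : T_DEN := Pool.Agent.H30.SFH.pf_DEN c5_MPH c5_HMP c5_NGD
theorem c5_HDN : T_HDN := Pool.Agent.H91.SFH.pf_HDN c5_MPH c5_HMP
theorem c5_SF1 : T_SF1 := Pool.Agent.H91.SFH.pf_SF1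
theorem c5_SF2 : T_SF2 := Pool.Agent.H94.SFH.pf_SF2 c5_SF1 c5_NGD c5_NDV
theorem c5_CLS : T_CLS := Pool.Agent.H94.SFH.pf_CLS
theorem c5_PEN : T_PEN := Pool.Agent.H77.SFH.pf_PEN c5_HMP
theorem c5_DC1 : T_DC1 := Pool.Agent.H30.SFH.pf_DC1 c5_SF1
theorem c5_DC2 : T_DC2 := Pool.Agent.H49.SFH.pf_DC2 c5_SF1
theorem c5_DC3 : T_DC3 := Pool.Agent.H91.SFH.pf_DC3 c5_SF1 c5_NGD c5_NDV
theorem c5_DC4 : T_DC4 := Pool.Agent.H56.SFH.pf_DC4 c5_SF1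
theorem c5_DCX : T_DCX := pf_DCX c5_DC1 c5_DC2 c5_DC3 c5_DC4
theorem c5_DCD : T_DCD := Pool.Agent.H91.SFH.pf_DCD c5_SF1

theorem c5_DCV : T_DCV := by
  intro δ j0 c0
  obtain ⟨C, hC⟩ := c5_DCD δ j0 c0
  refine ⟨C, ?_⟩
  intro k F _ _ _ _ _ u dd J hS m G hm hG
  obtain ⟨LL, i1, i2, π, v, EL, d, h⟩ := c5_DCX k F u dd δ j0 c0 J hS m G hm hG
  exact ⟨LL, i1, i2, π, v, EL, d, h, @hC k F _ _ _ _ _ u dd J hS m G hm hG LL i1 i2 π v EL d h⟩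

end Pool.Agent.H62.HIL
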