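import Pool.Agent.H62.HIL.Eig

/-!
# THEOREM S, chapter 5 (HIL): dimensions of the homogeneous parts
-/

set_option autoImplicit false

namespace Pool.Agent.H62.HIL

open MvPolynomial Pool.Agent.H3.SF
open scoped IntermediateField.algebraAdjoinAdjoin

variable {κ F : Type} [Field κ] [Field F] [Algebra κ F] {E : Derivation κ F F}

theorem sum_comp {ι : Type} (f : MvPolynomial ι κ) (N : ℕ) (hN : f.totalDegree ≤ N) :
    ∑ e ∈ Finset.range (N + 1), homogeneousComponent e f = f := by
  conv_rhs => rw [← sum_homogeneousComponent f]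
  symm
  refine Finset.sum_subset (Finset.range_mono (by omega)) fun e _ he => ?_
  refine homogeneousComponent_eq_zero _ _ ?_
  rw [Finset.mem_range] at he
  omega

/-- a relation over `κ(v)` gives a homogeneous relation over `κ[v]` -/
theorem exists_homogeneous_relation {ι : Type} {v : ι → F} (hv : AlgebraicIndependent κ v)
    [CharZero F] (hE : ∀ i, Hm κ E 1 (v i)) {τ : Type} [Fintype τ] (t : ℤ) (x : τ → F)
    (hx : ∀ i, Hm κ E t (x i)) (h : ¬ LinearIndependent (kF κ v) x) :
    ∃ (e : ℕ) (f : τ → MvPolynomial ι κ), (∀ i, (f i).IsHomogeneous e) ∧ f ≠ 0 ∧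
      ∑ i, aeval v (f i) * x i = 0 := by
  classical
  have h1 : ¬ LinearIndependent (Algebra.adjoin κ (Set.range v)) x := by
    intro h2
    exact h ((LinearIndependent.iff_fractionRing (Algebra.adjoin κ (Set.range v)) (kF κ v)).mp h2)
  obtain ⟨g, hg0, i0, hi0⟩ := Fintype.not_linearIndependent_iff.mp h1
  have hg : ∀ i, ∃ f : MvPolynomial ι κ, aeval v f = ((g i : _) : F) := by
    intro i
    have h2 : ∀ y ∈ Algebra.adjoin κ (Set.range v), ∃ f : MvPolynomial ι κ, aeval v f = y := by
      intro y hy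
      rw [Algebra.adjoin_range_eq_range_aeval] at hy
      exact hy
    exact h2 _ (g i).2
  choose f hf using hg
  have hrel : ∑ i, aeval v (f i) * x i = 0 := by
    rw [← hg0]
    refine Finset.sum_congr rfl fun i _ => ?_
    rw [hf i, Algebra.smul_def]; rfl
  have hf0 : f i0 ≠ 0 := by
    intro h2
    have h3 := hf i0
    rw [h2, map_zero] at h3
    exact hi0 (Subtype.ext h3.symm)
  set N := ∑ i, (f i).totalDegree with hN
  have hNi : ∀ i, (f i).totalDegree ≤ N := fun i =>
    Finset.single_le_sum (f := fun i => (f i).totalDegree) (fun _ _ => Nat.zero_le _)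
      (Finset.mem_univ i)
  have hsum : ∑ e ∈ Finset.range (N + 1), (∑ i, aeval v (homogeneousComponent e (f i)) * x i) =
      0 := by
    rw [Finset.sum_comm, ← hrel]
    refine Finset.sum_congr rfl fun i _ => ?_
    rw [← Finset.sum_mul, ← map_sum, sum_comp _ _ (hNi i)]
  have hz := hm_sum_eq_zero (E := E) (κ := κ) (Finset.range (N + 1)) (fun e => (e : ℤ) + t)
    (fun a _ b _ hab => by simpa using hab)
    (fun e => ∑ i, aeval v (homogeneousComponent e (f i)) * x i)
    (fun e _ => hm_sum _ _ fun i _ =>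
      hm_mul (hm_aeval hE (homogeneousComponent_isHomogeneous e (f i))) (hx i)) hsum
  obtain ⟨e, he, he0⟩ : ∃ e ∈ Finset.range (N + 1), homogeneousComponent e (f i0) ≠ 0 := by
    by_contra hcon
    push Not at hcon
    exact hf0 (by rw [← sum_comp _ _ (hNi i0)]; exact Finset.sum_eq_zero hcon)
  exact ⟨e, fun i => homogeneousComponent e (f i),
    fun i => homogeneousComponent_isHomogeneous e (f i),
    fun h2 => he0 (congrFun h2 i0), hz e he⟩

theorem split_X0 {f : MvPolynomial (Fin 2) κ} {e : ℕ} (hf : f.IsHomogeneous e) :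
    f = C (coeff (Finsupp.single 1 e) f) * X 1 ^ e +
      X 0 * (f.divMonomial (Finsupp.single 0 1)) := by
  classical
  conv_lhs => rw [← divMonomial_add_modMonomial_single f 0]
  rw [add_comm]
  congr 1
  ext m
  have hX : coeff m (C (coeff (Finsupp.single 1 e) f) * X 1 ^ e : MvPolynomial (Fin 2) κ) =
      if m = Finsupp.single 1 e then coeff (Finsupp.single 1 e) f else 0 := by
    rw [coeff_C_mul, coeff_X_pow]
    by_cases h : m = Finsupp.single 1 e
    · rw [if_pos h, if_pos h.symm, mul_one]
    · rw [if_neg h, if_neg (fun h' => h h'.symm), mul_zero]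
  rw [hX]
  by_cases hm : Finsupp.single 0 1 ≤ m
  · rw [coeff_modMonomial_of_le _ hm, if_neg]
    rintro rfl
    have := hm 0
    simp at this
  · rw [coeff_modMonomial_of_not_le _ hm]
    have hm0 : m 0 = 0 := by
      by_contra hcon
      apply hm
      rw [Finsupp.single_le_iff]
      omega
    split_ifs with h
    · rw [h]
    · by_contra hcon
      have hd : m.degree = e := by
        rw [Finsupp.degree_eq_weight_one]
        exact hf hcon
      apply h
      have h1 : m.degree = m 0 + m 1 := by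
        rw [Finsupp.degree_eq_sum]
        simp [Fin.sum_univ_two]
      ext i
      fin_cases i
      · simp [hm0]
      · simp; omega

theorem div_X0_hom {f : MvPolynomial (Fin 2) κ} {e : ℕ} (hf : f.IsHomogeneous (e + 1)) :
    (f.divMonomial (Finsupp.single 0 1)).IsHomogeneous e := by
  intro m hm
  rw [coeff_divMonomial] at hm
  have h1 := hf hm
  rw [map_add, Finsupp.weight_single] at h1
  simp only [Pi.one_apply, smul_eq_mul, mul_one] at h1
  omega

theorem bb_mem {ι : Type} {v : ι → F} {t : ℤ} {a : F} :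
    a ∈ BB κ v E t ↔ Pool.Agent.H3.SF.Itg κ v a ∧ Hm κ E t a := Iff.rfl

/-- (STP) -/
theorem stp {v : Fin 2 → F} (hv : AlgebraicIndependent κ v) [CharZero F]
    (hE : ∀ i, Hm κ E 1 (v i)) {τ : Type} [Fintype τ] (t : ℤ) (x : τ → F)
    (hx : ∀ i, x i ∈ BB κ v E t) (h : ¬ LinearIndependent (kF κ v) x) :
    ∃ l : τ → κ, l ≠ 0 ∧ ∃ w ∈ BB κ v E (t - 1), ∑ i, l i • x i = v 0 * w := by
  classical
  have hex : ∃ e : ℕ, ∃ (f : τ → MvPolynomial (Fin 2) κ), (∀ i, (f i).IsHomogeneous e) ∧ f ≠ 0 ∧
      ∑ i, aeval v (f i) * x i = 0 := exists_homogeneous_relation hv hE t x (fun i => (hx i).2) h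
  obtain ⟨f, hf, hf0, hrel⟩ := Nat.find_spec hex
  set e := Nat.find hex with he
  have hv0 : v 0 ≠ 0 := hv.ne_zero 0
  set l : τ → κ := fun i => coeff (Finsupp.single 1 e) (f i) with hl
  set h' : τ → MvPolynomial (Fin 2) κ := fun i => (f i).divMonomial (Finsupp.single 0 1) with hh'
  have hsplit : ∀ i, f i = C (l i) * X 1 ^ e + X 0 * h' i := fun i => split_X0 (hf i)
  have hl0 : l ≠ 0 := by
    intro hcon
    have h1 : ∀ i, f i = X 0 * h' i := by
      intro i
      rw [hsplit i, congrFun hcon i]
      simp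
    rcases Nat.eq_zero_or_pos e with he0 | he0
    · apply hf0
      funext i
      have h2 : f i = C (coeff 0 (f i)) := by
        have h3 := hf i
        rw [he0] at h3
        exact (totalDegree_eq_zero_iff_eq_C.mp (Nat.le_zero.mp h3.totalDegree_le))
      have h4 : coeff 0 (f i) = l i := by
        simp only [hl]; rw [he0]; simp
      rw [h2, h4, congrFun hcon i]
      simp
    · obtain ⟨e', he'⟩ : ∃ e', e = e' + 1 := ⟨e - 1, by omega⟩
      refine Nat.find_min hex (m := e') (by omega) ⟨h', fun i => ?_, ?_, ?_⟩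
      · have h3 := hf i
        rw [he'] at h3
        exact div_X0_hom h3
      · intro h4
        apply hf0
        funext i
        rw [h1 i, congrFun h4 i]
        simp
      · have h5 : v 0 * ∑ i, aeval v (h' i) * x i = 0 := by
          rw [← hrel, Finset.mul_sum]
          refine Finset.sum_congr rfl fun i _ => ?_
          rw [h1 i, map_mul, aeval_X]; ring
        exact (mul_eq_zero.mp h5).resolve_left hv0
  refine ⟨l, hl0, (∑ i, l i • x i) / v 0, ?_, by rw [mul_div_cancel₀ _ hv0]⟩
  set z := ∑ i, l i • x i with hz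
  have hzBB : z ∈ BB κ v E t := Submodule.sum_mem _ fun i _ => Submodule.smul_mem _ _ (hx i)
  refine ⟨?_, ?_⟩
  · rw [itg_iff]
    have hrel2 : v 1 ^ e * z = -(v 0 * ∑ i, aeval v (h' i) * x i) := by
      have h1 : v 1 ^ e * z + v 0 * ∑ i, aeval v (h' i) * x i = ∑ i, aeval v (f i) * x i := by
        rw [hz, Finset.mul_sum, Finset.mul_sum, ← Finset.sum_add_distrib]
        refine Finset.sum_congr rfl fun i _ => ?_
        conv_rhs => rw [hsplit i]
        rw [map_add, map_mul, map_mul, map_pow, aeval_C, aeval_X, aeval_X, Algebra.smul_def]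
        ring
      rw [hrel] at h1
      exact eq_neg_of_add_eq_zero_left h1
    refine s2 hv (i := 0) (j := 1) (by decide) 1 e ?_ ?_
    · rw [pow_one, mul_div_cancel₀ _ hv0]
      exact itg_iff.mp hzBB.1
    · have h2 : v 1 ^ e * (z / v 0) = -∑ i, aeval v (h' i) * x i := by
        rw [← mul_div_assoc, hrel2, neg_div, mul_div_cancel_left₀ _ hv0]
      rw [h2]
      exact (itg_sum _ _ fun i _ => (itg_aeval v (h' i)).mul (itg_iff.mp (hx i).1)).neg
  · exact hm_div hzBB.2 (hE 0) hv0

end Pool.Agent.H62.HIL
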