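import Pool.Agent.H62.HIL.Lin

/-!
# THEOREM S, chapter 5 (HIL): STP and LMH
-/

set_option autoImplicit false

namespace Pool.Agent.H62.HIL

open MvPolynomial Pool.Agent.H3.SF
open scoped IntermediateField.algebraAdjoinAdjoin

variable {κ F : Type} [Field κ] [Field F] [Algebra κ F] {E : Derivation κ F F}

theorem bb_finite {v : Fin 2 → F} (hv : AlgebraicIndependent κ v) [CharZero F]
    (hE : ∀ i, Hm κ E 1 (v i)) [FiniteDimensional (kF κ v) F] (t : ℤ) :
    Module.Finite κ (BB κ v E t) := by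
  rcases lt_or_ge t 0 with h | h
  · rw [bb_neg hE h]; infer_instance
  · obtain ⟨n, rfl⟩ := Int.eq_ofNat_of_zero_le h
    exact (dim_le hv hE n).1

/-- large spaces contain elements divisible by `v 0 ^ j` -/
theorem stp_pow {v : Fin 2 → F} (hv : AlgebraicIndependent κ v) [CharZero F]
    (hE : ∀ i, Hm κ E 1 (v i)) [FiniteDimensional (kF κ v) F] (j : ℕ) :
    ∀ (t : ℤ) (W : Submodule κ F), W ≤ BB κ v E t →
      Module.finrank (kF κ v) F * j < Module.finrank κ W →
      ∃ s ∈ W, s ≠ 0 ∧ ∃ b ∈ BB κ v E (t - j), s = v 0 ^ j * b := by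
  have hv0 : v 0 ≠ 0 := hv.ne_zero 0
  induction j with
  | zero =>
    intro t W hW hlt
    have hne : W ≠ ⊥ := by
      rintro rfl
      simp at hlt
    obtain ⟨s, hs, hs0⟩ := Submodule.exists_mem_ne_zero_of_ne_bot hne
    refine ⟨s, hs, hs0, s, ?_, by rw [pow_zero, one_mul]⟩
    have := hW hs
    simpa using this
  | succ j ih =>
    intro t W hW hlt
    set d := Module.finrank (kF κ v) F with hd
    haveI hfin := bb_finite hv hE t
    haveI hfin1 := bb_finite hv hE (t - 1)
    haveI hWfin : Module.Finite κ W := Submodule.finiteDimensional_of_le hW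
    set f : W →ₗ[κ] (BB κ v E t ⧸ LinearMap.range (mulV v E hE t)) :=
      (LinearMap.range (mulV v E hE t)).mkQ.comp (Submodule.inclusion hW) with hf
    have h1 := LinearMap.finrank_range_add_finrank_ker f
    have h2 : Module.finrank κ (LinearMap.range f) ≤ d := by
      refine (Submodule.finrank_le _).trans ?_
      exact Module.finrank_le_of_rank_le (rank_quot_le hv hE t)
    set μ : F →ₗ[κ] F := LinearMap.mulLeft κ (v 0) with hμ
    set W' : Submodule κ F := W.comap μ ⊓ BB κ v E (t - 1) with hW'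
    have h3 : (LinearMap.ker f).map W.subtype ≤ W'.map μ := by
      rintro _ ⟨w, hw, rfl⟩
      have hw' : f w = 0 := hw
      rw [hf, LinearMap.comp_apply, Submodule.mkQ_apply, Submodule.Quotient.mk_eq_zero] at hw'
      obtain ⟨b, hb⟩ := hw'
      have hb' : v 0 * (b : F) = (w : F) := congrArg Subtype.val hb
      refine ⟨b, ⟨?_, b.2⟩, hb'⟩
      show v 0 * (b : F) ∈ W
      rw [hb']; exact w.2
    haveI hW'fin : Module.Finite κ W' :=
      Submodule.finiteDimensional_of_le (S₂ := BB κ v E (t - 1)) inf_le_right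
    have h4 : Module.finrank κ (LinearMap.ker f) ≤ Module.finrank κ W' := by
      have h5 : Module.finrank κ ((LinearMap.ker f).map W.subtype) =
          Module.finrank κ (LinearMap.ker f) :=
        Submodule.finrank_map_subtype_eq _ _
      rw [← h5]
      exact (Submodule.finrank_mono h3).trans (Submodule.finrank_map_le μ W')
    have h6 : d * j < Module.finrank κ W' := by
      have : d * (j + 1) = d * j + d := by ring
      omega
    obtain ⟨s, hs, hs0, b, hb, hsb⟩ := ih (t - 1) W' inf_le_right h6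
    refine ⟨v 0 * s, hs.1, mul_ne_zero hv0 hs0, b, ?_, ?_⟩
    · have : t - 1 - (j : ℤ) = t - ((j + 1 : ℕ) : ℤ) := by push_cast; ring
      rwa [this] at hb
    · rw [hsb]; ring

/-- (LMH) when `X 0` does not divide `H` -/
theorem lmh0 {v : Fin 2 → F} (hv : AlgebraicIndependent κ v) [CharZero F]
    (hE : ∀ i, Hm κ E 1 (v i)) [FiniteDimensional (kF κ v) F] (t : ℤ) (W : Submodule κ F)
    (hW : W ≤ BB κ v E t) (h : ℕ) (H : MvPolynomial (Fin 2) κ) (hH : H.IsHomogeneous h)
    (hX : ¬ (X 0 : MvPolynomial (Fin 2) κ) ∣ H)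
    (hdiv : ∀ s ∈ W, ∃ q : MvPolynomial (Fin 2) κ,
      ((Algebra.norm (kF κ v) s : kF κ v) : F) = aeval v (H * q)) (hne : W ≠ ⊥) :
    (Module.finrank κ W : ℤ) + h ≤ Module.finrank (kF κ v) F * (t + 1) := by
  set d := Module.finrank (kF κ v) F with hd
  have hdpos : 0 < d := Module.finrank_pos
  haveI hfin := bb_finite hv hE t
  haveI hWfin : Module.Finite κ W := Submodule.finiteDimensional_of_le hW
  have hDpos : 0 < Module.finrank κ W := by
    haveI : Nontrivial W := Submodule.nontrivial_iff_ne_bot.mpr hne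
    exact Module.finrank_pos
  set D := Module.finrank κ W with hD
  set j := (D - 1) / d with hj
  have hj1 : d * j < D := by
    have := Nat.mul_div_le (D - 1) d
    rw [← hj] at this
    omega
  have hj2 : D ≤ d * (j + 1) := by
    have := Nat.lt_mul_div_succ (D - 1) hdpos
    rw [← hj] at this
    omega
  obtain ⟨s, hs, hs0, b, hb, hsb⟩ := stp_pow hv hE j t W hW hj1
  have hb0 : b ≠ 0 := by
    rintro rfl
    exact hs0 (by rw [hsb, mul_zero])
  have htj : 0 ≤ t - j := by
    by_contra hcon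
    rw [bb_neg hE (not_le.mp hcon)] at hb
    exact hb0 ((Submodule.mem_bot κ).mp hb)
  obtain ⟨t', ht'⟩ := Int.eq_ofNat_of_zero_le htj
  rw [ht'] at hb
  obtain ⟨N, hN, hN'⟩ := norm_hom hv hE (t := t') hb
  rw [← hd] at hN
  have hN0 : N ≠ 0 := by
    rintro rfl
    rw [map_zero] at hN'
    have : Algebra.norm (kF κ v) b = 0 := Subtype.ext hN'
    exact hb0 (Algebra.norm_eq_zero_iff.mp this)
  obtain ⟨q, hq⟩ := hdiv s hs
  have hv0mem : v 0 ∈ kF κ v := IntermediateField.subset_adjoin κ _ ⟨0, rfl⟩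
  have hnorm : ((Algebra.norm (kF κ v) s : kF κ v) : F) =
      aeval v ((X 0) ^ (d * j) * N) := by
    have h1 : s = (algebraMap (kF κ v) F ⟨v 0, hv0mem⟩) ^ j * b := hsb
    rw [h1, map_mul, map_pow, Algebra.norm_algebraMap]
    rw [map_mul, map_pow, aeval_X, ← hN', ← hd]
    push_cast
    rw [← pow_mul]
  rw [hq] at hnorm
  have heq : H * q = (X 0) ^ (d * j) * N := by
    have h2 := sub_eq_zero.mpr hnorm
    rw [← map_sub] at h2
    exact sub_eq_zero.mp (hv.eq_zero_of_aeval_eq_zero _ h2)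
  have hcop : IsRelPrime H ((X 0 : MvPolynomial (Fin 2) κ) ^ (d * j)) := by
    have hi : Irreducible (X 0 : MvPolynomial (Fin 2) κ) := (X_prime (R := κ) (i := 0)).irreducible
    exact ((hi.isRelPrime_iff_not_dvd.mpr hX).pow_left).symm
  have hdvd : H ∣ N := hcop.dvd_of_dvd_mul_left ⟨q, heq.symm⟩
  obtain ⟨r, hr⟩ := hdvd
  have hle : h ≤ d * t' := by
    have hr0 : r ≠ 0 := by rintro rfl; exact hN0 (by rw [hr, mul_zero])
    have hH0 : H ≠ 0 := by rintro rfl; exact hN0 (by rw [hr, zero_mul])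
    have h3 := totalDegree_mul_of_isDomain hH0 hr0
    rw [← hr, hN.totalDegree hN0, hH.totalDegree hH0] at h3
    omega
  have h4 : (t : ℤ) = t' + j := by linarith
  rw [h4]
  have h5 : (D : ℤ) ≤ d * ((j : ℤ) + 1) := by exact_mod_cast hj2
  have h6 : (h : ℤ) ≤ d * (t' : ℤ) := by exact_mod_cast hle
  nlinarith

/-- scaling of a form -/
theorem eval_scale {κ : Type} [Field κ] {h : ℕ} {H : MvPolynomial (Fin 2) κ}
    (hH : H.IsHomogeneous h) (c : κ) (y : Fin 2 → κ) :
    eval (fun i => c * y i) H = c ^ h * eval y H := by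
  rw [eval_eq', eval_eq', Finset.mul_sum]
  refine Finset.sum_congr rfl fun m hm => ?_
  have h1 : ∑ i, m i = h := by
    have h2 : m.degree = h := by
      rw [Finsupp.degree_eq_weight_one]; exact hH (mem_support_iff.mp hm)
    rw [← h2, Finsupp.degree_eq_sum]
  simp only [mul_pow]
  rw [Finset.prod_mul_distrib, Finset.prod_pow_eq_pow_sum, h1]
  ring

/-- a point where a form does not vanish -/
theorem exists_point {κ : Type} [Field κ] [Infinite κ] {h : ℕ} {H : MvPolynomial (Fin 2) κ}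
    (hH : H.IsHomogeneous h) (h0 : H ≠ 0) : ∃ c : κ, eval ![c, 1] H ≠ 0 := by
  have h1 : (X 1 * H : MvPolynomial (Fin 2) κ) ≠ 0 := mul_ne_zero (X_ne_zero 1) h0
  obtain ⟨x, hx⟩ : ∃ x : Fin 2 → κ, eval x (X 1 * H) ≠ 0 := by
    by_contra hcon
    push Not at hcon
    exact h1 (MvPolynomial.funext fun x => by rw [hcon x, map_zero])
  rw [map_mul, eval_X] at hx
  have hx1 : x 1 ≠ 0 := left_ne_zero_of_mul hx
  have hx2 : eval x H ≠ 0 := right_ne_zero_of_mul hx
  refine ⟨x 0 / x 1, fun hcon => hx2 ?_⟩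
  have h2 : x = fun i => x 1 * (![x 0 / x 1, 1] : Fin 2 → κ) i := by
    funext i
    fin_cases i
    · simp; field_simp
    · simp
  rw [h2, eval_scale hH, hcon, mul_zero]

/-- (LMH) -/
theorem lmh {v : Fin 2 → F} (hv : AlgebraicIndependent κ v) [CharZero κ] [CharZero F]
    (hE : ∀ i, Hm κ E 1 (v i)) [FiniteDimensional (kF κ v) F] (t : ℤ) (W : Submodule κ F)
    (hW : W ≤ BB κ v E t) (h : ℕ) (H : MvPolynomial (Fin 2) κ) (hH : H.IsHomogeneous h)
    (h0 : H ≠ 0)
    (hdiv : ∀ s ∈ W, ∃ q : MvPolynomial (Fin 2) κ,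
      ((Algebra.norm (kF κ v) s : kF κ v) : F) = aeval v (H * q)) (hne : W ≠ ⊥) :
    (Module.finrank κ W : ℤ) + h ≤ Module.finrank (kF κ v) F * (t + 1) := by
  obtain ⟨c, hc⟩ := exists_point hH h0
  -- coordinates `X 0 - c X 1`, `X 1`
  set M : Matrix (Fin 2) (Fin 2) κ := !![1, -c; 0, 1] with hM
  set N : Matrix (Fin 2) (Fin 2) κ := !![1, c; 0, 1] with hN
  have hMN : M * N = 1 := by
    rw [hM, hN, Matrix.mul_fin_two, Matrix.one_fin_two]; simp
  have hNM : N * M = 1 := by
    rw [hM, hN, Matrix.mul_fin_two, Matrix.one_fin_two]; simp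
  set v' := linv M v with hv'
  have hk : kF κ v' = kF κ v := kF_linv hNM v
  have hv'ind : AlgebraicIndependent κ v' := linv_ind hMN hv
  have key : ∀ (K : IntermediateField κ F), K = kF κ v → ∀ s : F,
      ((Algebra.norm K s : K) : F) = ((Algebra.norm (kF κ v) s : kF κ v) : F) ∧
      Module.finrank K F = Module.finrank (kF κ v) F ∧
      (FiniteDimensional (kF κ v) F → FiniteDimensional K F) := by
    rintro K rfl s
    exact ⟨rfl, rfl, fun h => h⟩
  haveI : FiniteDimensional (kF κ v') F := (key _ hk 0).2.2 inferInstance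
  have h1 := lmh0 (E := E) hv'ind (fun i => hm_linv M hE i) t W
    (by rw [bb_linv hNM]; exact hW) h (phiM N H) (phiM_hom N hH) ?_ ?_ hne
  · rw [(key _ hk 0).2.1] at h1
    exact h1
  · rintro ⟨r, hr⟩
    apply hc
    have h2 : H = phiM M (X 0 * r) := by rw [← hr, phiM_phiM hNM]
    rw [h2, map_mul, phiM_X, map_mul]
    have h3 : eval ![c, 1] (∑ j, C (M 0 j) * X j : MvPolynomial (Fin 2) κ) = 0 := by
      rw [map_sum, Fin.sum_univ_two]
      simp [hM]
    rw [h3, zero_mul]
  · intro s hs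
    obtain ⟨q, hq⟩ := hdiv s hs
    refine ⟨phiM N q, ?_⟩
    rw [(key _ hk s).1, hq, hv', aeval_linv, map_mul (phiM M), phiM_phiM hNM, phiM_phiM hNM]

end Pool.Agent.H62.HIL
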