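import Pool.Agent.H62.HIL.Norm
import Pool.Agent.H62.HIL.Gen
import Pool.Agent.H3.SF.Tg1

/-!
# THEOREM S, chapter 5 (HIL): linear changes of the variables
-/

set_option autoImplicit false

namespace Pool.Agent.H62.HIL

open MvPolynomial Pool.Agent.H3.SF
open scoped IntermediateField.algebraAdjoinAdjoin

variable {κ F : Type} [Field κ] [Field F] [Algebra κ F] {E : Derivation κ F F}
  {ι : Type} [Fintype ι] [DecidableEq ι]

/-- linear change of variables in the polynomial ring -/
noncomputable def phiM (M : Matrix ι ι κ) : MvPolynomial ι κ →ₐ[κ] MvPolynomial ι κ :=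
  aeval fun i => ∑ j, C (M i j) * X j

/-- linear change of the elements `v` -/
noncomputable def linv (M : Matrix ι ι κ) (v : ι → F) : ι → F := fun i => ∑ j, M i j • v j

theorem phiM_X (M : Matrix ι ι κ) (i : ι) : phiM M (X i) = ∑ j, C (M i j) * X j := by
  unfold phiM
  rw [aeval_X]

theorem phiM_phiM {M N : Matrix ι ι κ} (h : M * N = 1) (f : MvPolynomial ι κ) :
    phiM N (phiM M f) = f := by
  have h1 : (phiM N).comp (phiM M) = AlgHom.id κ (MvPolynomial ι κ) := by
    refine MvPolynomial.algHom_ext fun i => ?_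
    rw [AlgHom.comp_apply, phiM_X, map_sum, AlgHom.id_apply]
    have h2 : ∀ j, phiM N (C (M i j) * X j) = ∑ l, C (M i j * N j l) * X l := by
      intro j
      rw [map_mul, phiM_X, Finset.mul_sum]
      refine Finset.sum_congr rfl fun l _ => ?_
      have : phiM N (C (M i j)) = C (M i j) := by
        unfold phiM
        rw [aeval_C]; rfl
      rw [this, C_mul]; ring
    rw [Finset.sum_congr rfl fun j _ => h2 j, Finset.sum_comm]
    have h3 : ∀ l, ∑ j, (C (M i j * N j l) * X l : MvPolynomial ι κ) =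
        C ((M * N) i l) * X l := by
      intro l
      rw [← Finset.sum_mul, ← map_sum, Matrix.mul_apply]
    rw [Finset.sum_congr rfl fun l _ => h3 l, h]
    rw [Finset.sum_eq_single i]
    · rw [Matrix.one_apply_eq, C_1, one_mul]
    · intro l _ hl
      rw [Matrix.one_apply_ne hl.symm, C_0, zero_mul]
    · intro hi
      exact absurd (Finset.mem_univ i) hi
  exact DFunLike.congr_fun h1 f

theorem phiM_hom (M : Matrix ι ι κ) {f : MvPolynomial ι κ} {n : ℕ} (hf : f.IsHomogeneous n) :
    (phiM M f).IsHomogeneous n := by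
  have h1 := hf.aeval (τ := ι) (fun i => ∑ j, C (M i j) * X j) (n := 1) (fun i => by
    refine IsHomogeneous.sum _ _ _ fun j _ => ?_
    have := (isHomogeneous_C ι (M i j)).mul (isHomogeneous_X κ j)
    rwa [zero_add] at this)
  rwa [one_mul] at h1

theorem aeval_linv (M : Matrix ι ι κ) (v : ι → F) (f : MvPolynomial ι κ) :
    aeval (linv M v) f = aeval v (phiM M f) := by
  have h1 : aeval (linv M v) = (aeval v : MvPolynomial ι κ →ₐ[κ] F).comp (phiM M) := by
    refine MvPolynomial.algHom_ext fun i => ?_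
    rw [aeval_X, AlgHom.comp_apply, phiM_X, map_sum]
    unfold linv
    refine Finset.sum_congr rfl fun j _ => ?_
    rw [map_mul, aeval_C, aeval_X, Algebra.smul_def]
  rw [h1]; rfl

theorem linv_ind {M N : Matrix ι ι κ} (h : M * N = 1) {v : ι → F} (hv : AlgebraicIndependent κ v) :
    AlgebraicIndependent κ (linv M v) := by
  rw [AlgebraicIndependent, injective_iff_map_eq_zero]
  intro f hf
  rw [aeval_linv] at hf
  have h1 : phiM M f = 0 := hv.eq_zero_of_aeval_eq_zero _ hf
  rw [← phiM_phiM h f, h1, map_zero]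

theorem linv_linv {M N : Matrix ι ι κ} (h : N * M = 1) (v : ι → F) : linv N (linv M v) = v := by
  funext i
  unfold linv
  have h1 : ∀ j, N i j • ∑ l, M j l • v l = ∑ l, (N i j * M j l) • v l := by
    intro j
    rw [Finset.smul_sum]
    exact Finset.sum_congr rfl fun l _ => smul_smul _ _ _
  rw [Finset.sum_congr rfl fun j _ => h1 j, Finset.sum_comm]
  have h2 : ∀ l, ∑ j, (N i j * M j l) • v l = (N * M) i l • v l := by
    intro l
    rw [← Finset.sum_smul, Matrix.mul_apply]
  rw [Finset.sum_congr rfl fun l _ => h2 l, h, Finset.sum_eq_single i]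
  · rw [Matrix.one_apply_eq, one_smul]
  · intro l _ hl
    rw [Matrix.one_apply_ne hl.symm, zero_smul]
  · intro hi
    exact absurd (Finset.mem_univ i) hi

theorem linv_mem (M : Matrix ι ι κ) (v : ι → F) (i : ι) :
    linv M v i ∈ Algebra.adjoin κ (Set.range v) :=
  Subalgebra.sum_mem _ fun j _ => Subalgebra.smul_mem _
    (Algebra.subset_adjoin (s := Set.range v) (Set.mem_range_self j)) _

theorem adjoin_linv {M N : Matrix ι ι κ} (h : N * M = 1) (v : ι → F) :
    Algebra.adjoin κ (Set.range (linv M v)) = Algebra.adjoin κ (Set.range v) := by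
  refine le_antisymm (Algebra.adjoin_le ?_) (Algebra.adjoin_le ?_)
  · rintro _ ⟨i, rfl⟩
    exact linv_mem M v i
  · rintro _ ⟨i, rfl⟩
    have := linv_mem N (linv M v) i
    rwa [linv_linv h] at this

theorem kF_linv {M N : Matrix ι ι κ} (h : N * M = 1) (v : ι → F) :
    kF κ (linv M v) = kF κ v := by
  have h1 : ∀ (M : Matrix ι ι κ) (v : ι → F), kF κ (linv M v) ≤ kF κ v := by
    intro M v
    refine IntermediateField.adjoin_le_iff.mpr ?_
    rintro _ ⟨i, rfl⟩
    exact IntermediateField.algebra_adjoin_le_adjoin κ _ (linv_mem M v i)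
  refine le_antisymm (h1 M v) ?_
  have h2 := h1 N (linv M v)
  rwa [linv_linv h] at h2

theorem itg_linv {M N : Matrix ι ι κ} (h : N * M = 1) (v : ι → F) (a : F) :
    Pool.Agent.H3.SF.Itg κ (linv M v) a ↔ Pool.Agent.H3.SF.Itg κ v a := by
  rw [itg_iff, itg_iff]
  unfold Pool.Agent.H62.HIL.Itg
  rw [adjoin_linv h]

theorem bb_linv {M N : Matrix ι ι κ} (h : N * M = 1) (v : ι → F) (t : ℤ) :
    BB κ (linv M v) E t = BB κ v E t := by
  ext a
  rw [bb_mem, bb_mem, itg_linv h]

theorem hm_linv (M : Matrix ι ι κ) {v : ι → F} (hE : ∀ i, Hm κ E 1 (v i)) (i : ι) :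
    Hm κ E 1 (linv M v i) := by
  refine hm_sum _ _ fun j _ => ?_
  have := hm_mul (hm_algebraMap (κ := κ) (F := F) (E := E) (M i j)) (hE j)
  rwa [zero_add, ← Algebra.smul_def] at this

end Pool.Agent.H62.HIL
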